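import Pool.Agent.V7H78.TC.GenK

/-!
# Algebras with a homomorphism and an ideal
-/

open Module

namespace Pool.Agent.V7H78.TC

/-- The linear subspaces of an algebra. -/
abbrev Sp (K : Type*) (A : Type*) [Field K] [Ring A] [Algebra K A] : Type _ := Submodule K A

variable {K : Type*} {A : Type*} {B : Type*} {H : Type*} [Field K] [Ring A] [Algebra K A] [Ring B]
  [Algebra K B] [Ring H] [Algebra K H]

/-- `J` is an ideal of `R`, contained in the kernel of `c` on `R`, which contains the products of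
two elements of this kernel. -/
def StepOf (c : A →ₐ[K] H) (R J : Sp K A) : Prop :=
  J ≤ kerOf c R ∧ (∀ x ∈ kerOf c R, ∀ y ∈ kerOf c R, x * y ∈ J) ∧ ∀ x ∈ R, ∀ y ∈ J, x * y ∈ J

/-- The maps `p` and `q` map `J` to `I` and `I` to `J`. -/
def StabOf (p : B →ₐ[K] A) (q : A →ₗ[K] B) (I : Sp K A) (J : Sp K B) : Prop :=
  (∀ y ∈ J, p y ∈ I) ∧ ∀ x ∈ I, q x ∈ J

/-- `J` is zero. -/
def ZeroOf (J : Sp K A) : Prop := ∀ x ∈ J, x = 0

/-- The space `J` is finite-dimensional and the function `f` vanishes on the kernel of `c` on `R`. -/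
def SmallOf {E : Type*} [Ring E] (c : A →ₐ[K] H) (R J : Sp K A) (f : A → E) : Prop :=
  Submodule.FG J ∧ ∀ x ∈ kerOf c R, f x = 0

end Pool.Agent.V7H78.TC
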