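import Pool.Agent.V7H78.TC.DefsK
import Pool.Agent.V7H78.TC.GenA

/-!
# Ideals of homologically trivial tautological classes: definitions
-/

open scoped ENNReal
open CategoryTheory

universe u v w

namespace Pool.Agent.V7H78.TC

open Pool.Agent.H914 Pool.Agent.H914.VarClass Pool.Agent.H914.VarClass.Obj Pool.Agent.W492.BB
  Pool.Agent.N132.IXS

variable {k : Type u} [Field k] {𝒱 : VarClass k} {ops : CycleOps 𝒱}
  {W : WeilCohomology.{u, v} ops}

/-- For each variety `Y` in `𝒱`, a linear subspace of `A(Y)`. -/
abbrev Spaces (C : CycleTheory.{u, v, w} W) : Type _ := ∀ Y : 𝒱.Obj, Sp W.K (C.A Y)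

/-- The spaces `J(Y)` are stable under pull-backs and push-forwards. -/
def Stable {K : Type v} [Field K] (T : TheoryData.{u, w, v} 𝒱 K) (J : ∀ Y, Sp K (T.A Y)) : Prop :=
  ∀ (Y Z : 𝒱.Obj) (f : Y ⟶ Z), StabOf (T.pull f) (T.push f) (J Y) (J Z)

/-- `J(Y)` is an ideal of the tautological ring of `Y` for each `Y` in `𝒱`; it consists of
homologically trivial classes and contains the products of any two homologically trivial
tautological classes; and the ideals are stable under pull-backs and push-forwards. The main
example: `J(Y)` is the space of the tautological classes which are homologically trivial and have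
trivial Abel-Jacobi image, that is, the kernel of the cycle class map to Deligne cohomology with
rational coefficients. -/
def IsAJ (C : CycleTheory.{u, v, w} W) (S : Gens C) (J : Spaces C) : Prop :=
  (∀ Y, StepOf (C.cl Y) (tautRing C.toTheoryData S Y) (J Y)) ∧ Stable C.toTheoryData J

/-- The ratio of the dimension of `J(X)` to the dimension of the tautological ring modulo numerical
equivalence. -/
noncomputable def ajRatio (C : CycleTheory.{u, v, w} W) (S : Gens C) (J : Spaces C) (X : 𝒱.Obj) :
    ℝ≥0∞ := ratioOf (J X) (tautRing C.toTheoryData S X) (C.deg X)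

/-- The space `J(X)` is finite-dimensional, and the external power `x × ⋯ × x` with `d + 2` factors
of each homologically trivial tautological class `x` on `X` is zero. -/
def SmallAJ (C : CycleTheory.{u, v, w} W) (S : Gens C) (J : Spaces C) (X : 𝒱.Obj) (d : ℕ) : Prop :=
  SmallOf (C.cl X) (tautRing C.toTheoryData S X) (J X) fun x =>
    ChowTheory.xpow (C := C.toChowTheory) x (d + 1)

end Pool.Agent.V7H78.TC
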