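import Pool.Agent.V7H78.TC.Fin
import Pool.Agent.V7H78.TC.DefsA

/-!
# Tautological classes with trivial Abel-Jacobi image
-/

set_option linter.unusedSectionVars false

open CategoryTheory AlgebraicGeometry Module Filter Topology
open scoped ENNReal

universe u v w x

namespace Pool.Agent.V7H78.TC

open Pool.Agent.H914 Pool.Agent.H914.VarClass Pool.Agent.H914.VarClass.Obj Pool.Agent.W492.BB
  Pool.Agent.Y133.Half Pool.Agent.H914.WeilCohomology Pool.Agent.N132 Pool.Agent.W550.Corr
  Pool.Agent.V7H5.AJ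
open Pool.Agent.N132.IXS (ChowTheory CycleTheory conv Commutes)

section gen

open Pool.Agent.N132.IX

variable {k : Type u} [Field k] {𝒱 : VarClass k} {ops : CycleOps 𝒱}
  {W : WeilCohomology.{u, v} ops} {X : 𝒱.Obj} {C : IX.CycleTheory.{u, v, w} W}
  {G : ∀ n, Submodule W.K (C.A (pw X n))}

/-- The external powers of a numerically trivial class, one of whose external powers belongs to
the family. -/
lemma xpow_filG' (hG : Stab C X G) {n : ℕ} {x : C.A (pw X n)} (hx : IX.CycleTheory.NumTriv x)
    {a : ℕ} (hxG : ∃ (q : ℕ) (θ : pw (pw X n) a ≅ pw X q), C.pull θ.inv (C.xpow x a) ∈ G q) :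
    ∀ j : ℕ, ∃ (q : ℕ) (θ : pw (pw X n) (a + j) ≅ pw X q),
      C.pull θ.inv (C.xpow x (a + j)) ∈ filG C X G j q
  | 0 => by
    obtain ⟨q, θ, h⟩ := hxG
    refine ⟨q, θ, ?_⟩
    rw [filG_zero]
    exact h
  | j + 1 => by
    obtain ⟨q, θ, hθ⟩ := xpow_filG' hG hx hxG j
    let φ : (pw (pw X n) (a + j)).prod (pw X n) ≅ pw X (q + n + 1) :=
      prodCongr θ (Iso.refl _) ≪≫ pwAdd X q n
    refine ⟨q + n + 1, φ, ?_⟩
    have e1 : φ.inv ≫ fst (pw (pw X n) (a + j)) (pw X n) =
        ((pwAdd X q n).inv ≫ fst _ _) ≫ θ.inv := by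
      change ((pwAdd X q n).inv ≫ (prodCongr θ (Iso.refl _)).inv) ≫ _ = _
      rw [Category.assoc, Category.assoc]
      congr 1
      exact Obj.lift_fst _ _
    have key : C.pull φ.inv (C.pull (fst (pw (pw X n) (a + j)) (pw X n)) (C.xpow x (a + j)) *
        C.pull (snd (pw (pw X n) (a + j)) (pw X n)) x) ∈ filG C X G (j + 1) (q + n + 1) := by
      rw [C.mul_comm, map_mul, ← TheoryData.pull_comp, ← TheoryData.pull_comp, e1,
        C.toTheoryData.pull_comp ((pwAdd X q n).inv ≫ fst _ _)]
      exact mul_filG (numTriv_pull _ hx) (pull_filG hG _ hθ)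
    exact key

/-- The family contains the compositions of two homologically trivial correspondences. -/
def HasComp (X : 𝒱.Obj) (C : IX.CycleTheory.{u, v, w} W)
    (G : ∀ n, Submodule W.K (C.A (pw X n))) : Prop :=
  ∀ n (a b : C.A ((pw X n).prod (pw X n))), C.cl _ a = 0 → C.cl _ b = 0 →
    C.pull (pwAdd X n n).inv (C.comp a b) ∈ G (n + n + 1)

/-- No phantoms. -/
lemma noPh_of_comp {d : ℕ} (hG : HasComp X C G) (h : ∀ n, filG C X G d n = ⊥) : NoPh X C := by
  intro n p hp hcl
  have e1 : C.pull (pwAdd X n n).hom (C.pull (pwAdd X n n).inv p) = p := by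
    rw [← TheoryData.pull_comp, Iso.hom_inv_id, TheoryData.pull_id]
  have h1 : ∀ j : ℕ, C.pull (pwAdd X n n).inv p ∈ filG C X G j (n + n + 1) := by
    intro j
    induction j with
    | zero =>
      rw [filG_zero]
      have h2 := hG n p p hcl hcl
      rwa [hp] at h2
    | succ j ih =>
      set T := TH133.tens C.toTheoryData (dg C.toTheoryData (pw X n)) p with hT
      have hTn : IX.CycleTheory.NumTriv T := numTriv_tens _ (numTriv_of_cl hcl)
      have e2 : C.pull (pwAdd X n n).inv p =
          C.act (C.comp (C.comp (C.cograph (pwAdd X n n).hom) T) (C.cograph (pwAdd X n n).inv))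
            (C.pull (pwAdd X n n).inv p) := by
        rw [TheoryData.act_comp, TheoryData.act_comp, TheoryData.act_cograph,
          TheoryData.act_cograph, e1, ← comp_eq_act, hp]
      rw [e2]
      exact act_filG (numTriv_comp (numTriv_comp' _ hTn) _) ih
  have h2 := h1 d
  rw [h, Submodule.mem_bot] at h2
  exact (pullEquiv C (pwAdd X n n).symm).injective (h2.trans (map_zero _).symm)

/-- The powers of a homologically trivial self-correspondence lie in the steps of the
filtration. -/
lemma lc_pow_comp (hG : HasComp X C G) {a : C.A (X.prod X)}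
    (ha : C.cl _ a = 0) : ∀ j : ℕ, ∃ P : C.A ((pw X 0).prod (pw X 0)),
      C.pull (pwAdd X 0 0).inv P ∈ filG C X G j (0 + 0 + 1) ∧ lc C a ^ (j + 2) = lc C (X := X) P
  | 0 => ⟨C.comp (Y := pw X 0) a a, by
      rw [filG_zero]
      exact hG 0 a a ha ha, by
      rw [zero_add, pow_two]
      exact lc_mul C (X := X) a a⟩
  | j + 1 => by
    obtain ⟨P, h1, h2⟩ := lc_pow_comp hG ha j
    refine ⟨C.comp (Y := pw X 0) P a, ?_, ?_⟩
    · set T := TH133.tens C.toTheoryData (dg C.toTheoryData (pw X 0)) a with hT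
      have hTn : IX.CycleTheory.NumTriv T := numTriv_tens _ (numTriv_of_cl ha)
      have e1 : C.pull (pwAdd X 0 0).hom (C.pull (pwAdd X 0 0).inv P) = P := by
        rw [← TheoryData.pull_comp, Iso.hom_inv_id, TheoryData.pull_id]
      have e2 : C.pull (pwAdd X 0 0).inv (C.comp (Y := pw X 0) P a) =
          C.act (C.comp (C.comp (C.cograph (pwAdd X 0 0).hom) T) (C.cograph (pwAdd X 0 0).inv))
            (C.pull (pwAdd X 0 0).inv P) := by
        rw [TheoryData.act_comp, TheoryData.act_comp, TheoryData.act_cograph,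
          TheoryData.act_cograph, e1, hT]
        congr 1
        exact comp_eq_act C (P := pw X 0) (Q := pw X 0) (Z := X) P a
      rw [e2]
      exact act_filG (numTriv_comp (numTriv_comp' _ hTn) _) h1
    · rw [show j + 1 + 2 = (j + 2) + 1 by ring, pow_succ, h2]
      exact lc_mul C (X := X) P a

/-- Homologically trivial self-correspondences are nilpotent. -/
lemma isNilpotent_of_comp {d : ℕ} (hG : HasComp X C G)
    (h : ∀ n, filG C X G d n = ⊥) {a : C.A (X.prod X)} (ha : C.cl _ a = 0) :
    IsNilpotent (lc C a) := by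
  obtain ⟨P, h1, h2⟩ := lc_pow_comp hG ha d
  rw [h, Submodule.mem_bot] at h1
  have h3 : P = 0 := (pullEquiv C (pwAdd X 0 0).symm).injective (h1.trans (map_zero _).symm)
  refine ⟨d + 2, ?_⟩
  rw [h2, h3]
  exact map_zero (compL C.toTheoryData (X := X) (Y := X) (Z := X))

/-- The even part of the motive. -/
theorem exists_even' (hnil : ∀ a : C.A (X.prod X), C.cl _ a = 0 → IsNilpotent (lc C a))
    {z : C.A (X.prod X)} (hz : z ∈ C.gr (X.prod X) X.dim)
    (hz' : ∀ i, ∀ a ∈ W.gr X i, C.rho X X z a = (-1 : W.K) ^ i • a) :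
    ∃ e : C.A (X.prod X), e ∈ C.gr (X.prod X) X.dim ∧ C.comp e e = e ∧
      C.comp (dg C.toTheoryData X - e) (dg C.toTheoryData X - e) = dg C.toTheoryData X - e ∧
      ∀ i, ∀ a ∈ W.gr X i, C.rho X X e a = if Even i then a else 0 := by
  classical
  set b : C.A (X.prod X) := (2 : W.K)⁻¹ • (dg C.toTheoryData X + z) with hb
  have hbm : b ∈ C.gr (X.prod X) X.dim :=
    Submodule.smul_mem _ _ (Submodule.add_mem _ (dg_mem C X) hz)
  have hba : ∀ i, ∀ a ∈ W.gr X i, C.rho X X b a = if Even i then a else 0 := by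
    intro i a ha
    rw [hb, map_smul, map_add, C.rho_dg, LinearMap.smul_apply, LinearMap.add_apply, hz' i a ha]
    change (2 : W.K)⁻¹ • (a + (-1 : W.K) ^ i • a) = _
    split_ifs with hi
    · rw [hi.neg_one_pow, one_smul, ← two_smul W.K a, smul_smul, inv_mul_cancel₀ two_ne_zero,
        one_smul]
    · rw [(Nat.not_even_iff_odd.1 hi).neg_one_pow, neg_one_smul, add_neg_cancel, smul_zero]
  set E : Module.End W.K (W.H X) := C.rho X X b with hE
  have hEE : E * E = E := by
    apply ext_gr
    intro i a ha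
    rw [Module.End.mul_apply, hba i a ha]
    split_ifs with hi
    · rw [hba i a ha, if_pos hi]
    · rw [map_zero]
  let p : ℕ → Module.End W.K (W.H X) := fun i => if i = 0 then E else if i = 1 then 1 - E else 0
  have hp : ∀ i, p i * p i = p i := by
    intro i
    simp only [p]
    split_ifs
    · exact hEE
    · rw [mul_sub, mul_one, sub_mul, one_mul, hEE, sub_self, sub_zero]
    · rw [mul_zero]
  have hpo : ∀ i j, i ≠ j → p i * p j = 0 := by
    intro i j hij
    simp only [p]
    split_ifs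
    · omega
    · rw [mul_sub, mul_one, hEE, sub_self]
    · rw [mul_zero]
    · rw [sub_mul, one_mul, hEE, sub_self]
    · omega
    · rw [mul_zero]
    · rw [zero_mul]
    · rw [zero_mul]
    · rw [zero_mul]
  have hps : ∑ i ∈ Finset.range 2, p i = 1 := by
    rw [Finset.sum_range_succ, Finset.sum_range_one]
    simp only [p, if_true, one_ne_zero, if_false]
    rw [add_sub_cancel]
  have hpr : ∀ i, ∃ a ∈ C.gr (X.prod X) X.dim, C.rho X X a = p i := by
    intro i
    simp only [p]
    split_ifs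
    · exact ⟨b, hbm, rfl⟩
    · refine ⟨dg C.toTheoryData X - b, Submodule.sub_mem _ (dg_mem C X) hbm, ?_⟩
      rw [map_sub, C.rho_dg]
      rfl
    · exact ⟨0, Submodule.zero_mem _, map_zero _⟩
  obtain ⟨π, h1, h2, h3, h4, h5, h6⟩ := (isCalc C X).lift (p := p) (m := 2)
    (fun a _ ha => hnil a (C.rho_eq_zero.1 ha)) hp hpo hps hpr
  have h7 : dg C.toTheoryData X - π 0 = π 1 := by
    rw [← h5, Finset.sum_range_succ, Finset.sum_range_one, add_sub_cancel_left]
  refine ⟨π 0, h1 0, h3 0, ?_, ?_⟩
  · rw [h7]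
    exact h3 1
  · intro i a ha
    rw [h6 0 (by norm_num)]
    exact hba i a ha

end gen

variable {k : Type u} [Field k] {𝒱 : VarClass k} {ops : CycleOps 𝒱}
  {W : WeilCohomology.{u, v} ops}

variable {C : CycleTheory.{u, v, w} W} {S : ∀ X : 𝒱.Obj, ℤ → Set (C.A X)} {X : 𝒱.Obj}

/-- The even and the odd part of the motive. -/
lemma kimura_even' (hS : Polarized C.toChowTheory S) (hno : NoPh X (TT hS))
    (hnil : ∀ a : (TT hS).A (X.prod X), (TT hS).cl _ a = 0 →
      IsNilpotent (lc (TT hS) a))
    {z : C.A (X.prod X)} (hz : Taut C.toTheoryData S (X.prod X) X.dim z)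
    (hz' : ActsBySign (W.gr X) (W.corr (C.cl _ z))) :
    ∃ p, IsEvenPart C S X p ∧ EvenOdd C.toChowTheory X p ∧
      (OddZero (W.gr X) → p = C.graph (𝟙 X)) := by
  classical
  obtain ⟨e, h1, h2, h3, h4⟩ := exists_even' (C := TT hS) hnil
    (z := mk hS z (taut_mem hz)) hz (fun i a ha => hz' i a ha)
  have hD : ∀ a : W.H X, (TT hS).rho X X (dg (TT hS).toTheoryData X) a = a := by
    intro a
    rw [(TT hS).rho_dg]
    rfl
  refine ⟨vv hS e, ⟨⟨h1, fun i a ha => ?_⟩, congrArg (vv hS) h2⟩, ⟨?_, ?_⟩, ?_⟩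
  · refine (h4 i a ha).trans ?_
    change _ = (if Even i then (1 : ℤ) else 0) • a
    by_cases hi : Even i
    · rw [if_pos hi, if_pos hi, one_smul]
    · rw [if_neg hi, if_neg hi, zero_smul]
  · refine ext_of_gdT hS (van_of_noPh hno true h2 (cl_par true ?_))
    intro j a ha
    have h5 := h4 j a ha
    rw [IX.CycleTheory.rho_apply] at h5
    rw [h5]
    unfold ParN
    simp
  · have key := sym_of_gdT hS (van_of_noPh hno false h3 (cl_par false ?_))
    · exact key
    · intro j a ha
      have h5 : (TT hS).rho X X (dg (TT hS).toTheoryData X - e) a =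
          a - if Even j then a else 0 := by
        rw [map_sub, LinearMap.sub_apply, hD, h4 j a ha]
      rw [IX.CycleTheory.rho_apply] at h5
      rw [h5]
      unfold ParN
      by_cases hj : Even j
      · simp [hj, Nat.not_odd_iff_even.2 hj]
      · simp [hj, Nat.not_even_iff_odd.1 hj]
  · intro h
    have h7 : (TT hS).cl _ (dg (TT hS).toTheoryData X - e) = 0 := by
      apply (TT hS).rho_eq_zero.1
      apply ext_gr
      intro i a ha
      rw [map_sub, LinearMap.sub_apply, hD, h4 i a ha]
      by_cases hi : Even i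
      · rw [if_pos hi, sub_self]
        rfl
      · rw [h i (Nat.not_even_iff_odd.1 hi), Submodule.mem_bot] at ha
        rw [ha, if_neg hi, sub_zero, map_zero]
    have h6 : dg (TT hS).toTheoryData X - e = 0 := hno 0 _ h3 h7
    exact (congrArg (vv hS) (sub_eq_zero.1 h6)).symm

end Pool.Agent.V7H78.TC
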