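import Pool.Agent.V7H78.TC.AJ1

/-!
# The growth of the ideals of homologically trivial tautological classes
-/

set_option linter.unusedSectionVars false

open CategoryTheory AlgebraicGeometry Module Filter Topology
open scoped ENNReal

universe u v w

namespace Pool.Agent.V7H78.TC

open Pool.Agent.H914 Pool.Agent.H914.VarClass Pool.Agent.H914.VarClass.Obj Pool.Agent.W492.BB
  Pool.Agent.Y133.Half Pool.Agent.H914.WeilCohomology Pool.Agent.N132 Pool.Agent.W550.Corr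
  Pool.Agent.V7H5.AJ
open Pool.Agent.N132.IXS (ChowTheory CycleTheory conv Commutes)

variable {k : Type u} [Field k] {𝒱 : VarClass k} {ops : CycleOps 𝒱}
  {W : WeilCohomology.{u, v} ops} {C : CycleTheory.{u, v, w} W}
  {S : ∀ X : 𝒱.Obj, ℤ → Set (C.A X)} (hS : Polarized C.toChowTheory S)
  {J : Spaces C} (hJ : IsAJ C S J) {X : 𝒱.Obj}

/-- The inclusion. -/
noncomputable def vvL (Y : 𝒱.Obj) : (TT hS).A Y →ₗ[W.K] C.A Y := (tsub C.toChowTheory S Y).val.toLinearMap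

/-- The family of ideals of the theory of the tautological classes. -/
noncomputable def tfam : Fam (TT hS) where
  I Y := (J Y).comap (vvL hS Y)
  mul_mem := fun {Y} x {y} hy => (hJ.1 Y).2.2 _ (vv_mem hS x) _ hy
  pull_mem := fun {Y Z} f {y} hy => (hJ.2 Y Z f).1 _ hy
  push_mem := fun {Y Z} f {y} hy => (hJ.2 Y Z f).2 _ hy

lemma mem_tfam {Y : 𝒱.Obj} {x : (TT hS).A Y} : x ∈ (tfam hS hJ).I Y ↔ vv hS x ∈ J Y := Iff.rfl

/-- The two forms of the ideal. -/
noncomputable def famEquiv (Y : 𝒱.Obj) : (tfam hS hJ).I Y ≃ₗ[W.K] J Y where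
  toFun x := ⟨(tsub C.toChowTheory S Y).val x.1, x.2⟩
  invFun x := ⟨mk hS x.1 ((hJ.1 Y).1 x.2).1, x.2⟩
  map_add' _ _ := rfl
  map_smul' _ _ := rfl
  left_inv _ := rfl
  right_inv _ := rfl

lemma ratio_eqJ (Y : 𝒱.Obj) : (tfam hS hJ).ratio Y = ajRatio C S J Y := by
  have h0 : (tcycle C S hS).toChowTheory.numRank Y = (TT hS).numRank Y :=
    IXS.numRank_conv (tcycle C S hS) Y
  rw [Fam.ratio, ← h0]
  have h1 : (tfam hS hJ).dim Y = Cardinal.toENat (Module.rank W.K (J Y)) := by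
    rw [Fam.dim]
    exact congrArg Cardinal.toENat (famEquiv hS hJ Y).rank_eq
  have h2 : (tcycle C S hS).toChowTheory.numRank Y = rankOf (tautRing C.toTheoryData S Y) (C.deg Y) :=
    numRank_eq Y
  rw [h1, h2]
  rfl

lemma mul_mem_of {Y : 𝒱.Obj} {a b : (TT hS).A Y}
    (ha : (TT hS).cl _ a = 0) (hb : (TT hS).cl _ b = 0) : a * b ∈ (tfam hS hJ).I Y :=
  (hJ.1 Y).2.1 (vv hS a) ⟨vv_mem hS a, ha⟩ (vv hS b) ⟨vv_mem hS b, hb⟩

lemma cl_pull_zero {Y Z : 𝒱.Obj} (f : Y ⟶ Z) {a : (TT hS).A Z} (ha : (TT hS).cl _ a = 0) :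
    (TT hS).cl _ ((TT hS).pull f a) = 0 := by
  rw [(TT hS).cl_pull, ha, map_zero]

lemma hasComp : HasComp X (TT hS) ((tfam hS hJ).G X) := by
  intro n a b ha hb
  exact (tfam hS hJ).pull_mem _ ((tfam hS hJ).push_mem _
    (mul_mem_of hS hJ (cl_pull_zero hS _ hb) (cl_pull_zero hS _ ha)))

include hS hJ in
/-- **The growth law.** -/
theorem aj_law (X : 𝒱.Obj) : ∃ L : ℝ≥0∞,
    Tendsto (fun n => ajRatio C S J (pw X n)) atTop (𝓝 L) ∧
    (L = 0 ↔ ∀ n, ZeroOf (J (pw X n))) ∧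
    (L = 0 ∨ 1 ≤ L) ∧
    (∀ d : ℕ, L < d + 1 → ∀ n, SmallAJ C S J (pw X n) d) ∧
    ((∃ z, TautActs C S X (fun i => (-1) ^ i) z) →
      (∃ N : ℕ∞, L = N) ∧ (L < ⊤ → ∃ p, IsEvenPart C S X p ∧ EvenOdd C.toChowTheory X p)) := by
  obtain ⟨l, hl, hl1⟩ := IX.exists_lam (TT hS) X
  obtain ⟨L, h1, -, h3, h4, h5⟩ := (tfam hS hJ).index_law X (hasLim_top (TT hS).S hl hl1)
  refine ⟨L, h1.congr fun n => ratio_eqJ hS hJ _, ?_, h4, fun d hd n => ?_, fun h => ?_⟩
  · rw [h3]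
    constructor
    · intro h n x hx
      have h6 : mk hS x ((hJ.1 _).1 hx).1 ∈ (tfam hS hJ).I (pw X n) := hx
      rw [h n, Submodule.mem_bot] at h6
      exact congrArg (vv hS) h6
    · intro h n
      rw [eq_bot_iff]
      intro x hx
      have h6 : vv hS x = 0 := h n _ hx
      rw [Submodule.mem_bot]
      exact vv_ext hS h6
  · obtain ⟨h6, h7⟩ := h5 d hd
    refine ⟨?_, ?_⟩
    · have h8 := h6 n
      exact Module.Finite.iff_fg.1 (Module.Finite.equiv (famEquiv hS hJ (pw X n)))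
    · intro x hx
      have hxc : (TT hS).cl _ (mk hS x hx.1) = 0 := hx.2
      have hnum : IX.CycleTheory.NumTriv (mk hS x hx.1) := numTriv_of_cl hxc
      have hstart : ∃ (q : ℕ) (θ : pw (pw X n) 1 ≅ pw X q),
          (TT hS).pull θ.inv ((TT hS).xpow (mk hS x hx.1) 1) ∈ (tfam hS hJ).G X q :=
        ⟨n + n + 1, pwAdd X n n, (tfam hS hJ).pull_mem _
          (mul_mem_of hS hJ (cl_pull_zero hS _ hxc) (cl_pull_zero hS _ hxc))⟩
      obtain ⟨q, θ, hθ⟩ := xpow_filG' (C := TT hS) (X := X) (G := (tfam hS hJ).G X)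
        ((tfam hS hJ).stab X) hnum hstart d
      rw [h7 q, Submodule.mem_bot] at hθ
      have h9 : IX.CycleTheory.xpow (C := TT hS) (mk hS x hx.1) (1 + d) = 0 :=
        (IX.pullEquiv (TT hS) θ.symm).injective
          (hθ.trans (map_zero (IX.pullEquiv (TT hS) θ.symm)).symm)
      have h10 := xpow_vv hS (mk hS x hx.1) (1 + d)
      rw [h9] at h10
      rw [add_comm d 1]
      exact h10.symm
  · obtain ⟨z, hz, hz'⟩ : ∃ z, Taut C.toTheoryData S (X.prod X) X.dim z ∧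
        ActsBySign (W.gr X) (W.corr (C.cl _ z)) := by
      obtain ⟨z, hz, hz'⟩ := h
      refine ⟨z, hz, fun i a ha => ?_⟩
      refine (hz' i a ha).trans ?_
      change ((-1 : ℤ) ^ i) • a = (-1 : W.K) ^ i • a
      rcases Nat.even_or_odd i with hi | hi
      · rw [hi.neg_one_pow, hi.neg_one_pow, one_smul, one_smul]
      · rw [hi.neg_one_pow, hi.neg_one_pow, neg_one_smul, neg_one_smul]
    refine ⟨?_, fun hL => ?_⟩
    · have hsign : Sign (tcycle C S hS) X := ⟨mk hS z (taut_mem hz), hz'⟩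
      have hgr : IX.Growth (TT hS).S X :=
        growth_of_nilNum _ (IX.exists_lam (TT hS) X) (nilNum_conv (Or.inl hsign))
      obtain ⟨L', h1', h2', -⟩ := (tfam hS hJ).index_law X (hasLim_nat (TT hS).S hgr)
      have h6 := tendsto_nhds_unique h1 h1'
      rcases h2' with h7 | ⟨N, hN, h7⟩
      · exact ⟨⊤, by rw [h6, h7]; simp⟩
      · obtain ⟨n, rfl⟩ := mem_natM.1 hN
        exact ⟨n, by rw [h6, h7, ENNReal.ofReal_natCast]; simp⟩
    · obtain ⟨d, hd⟩ : ∃ d : ℕ, L < d + 1 := by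
        obtain ⟨d, hd⟩ := ENNReal.exists_nat_gt hL.ne
        exact ⟨d, hd.trans_le le_self_add⟩
      have hc := hasComp hS hJ (X := X)
      obtain ⟨p, h6, h7, -⟩ := kimura_even' hS (noPh_of_comp hc (h5 d hd).2)
        (fun a ha => isNilpotent_of_comp hc (h5 d hd).2 ha) hz hz'
      exact ⟨p, h6, h7⟩

end Pool.Agent.V7H78.TC
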