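import Pool.Agent.V7H78.TC.Gen
import Pool.Agent.N132.IXS.Defs
import Pool.Agent.H914R2.CorrDefs

/-!
# Tautological classes: definitions
-/

open CategoryTheory AlgebraicGeometry Module

universe u v w

namespace Pool.Agent.V7H78.TC

open Pool.Agent.H914 Pool.Agent.H914.VarClass Pool.Agent.H914.VarClass.Obj Pool.Agent.W492.BB
  Pool.Agent.N132.IXS

variable {k : Type u} [Field k] {𝒱 : VarClass k} {K : Type v} [Field K]

/-- `Taut T S X i x`: the class `x` of codimension `i` on `X` is tautological with respect to the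
generators `S` (`S X i` is any set of classes of codimension `i` on `X`, for `X` in the class `𝒱`):
it is obtained from the generators and the fundamental classes of the varieties in `𝒱` by products,
linear combinations, and pull-backs and push-forwards along morphisms between varieties in `𝒱`. -/
inductive Taut (T : TheoryData.{u, w, v} 𝒱 K) (S : ∀ X : 𝒱.Obj, ℤ → Set (T.A X)) :
    ∀ X : 𝒱.Obj, ℤ → T.A X → Prop
  | gen (X : 𝒱.Obj) (i : ℤ) (x : T.A X) (hx : x ∈ S X i) (hd : x ∈ T.gr X i) : Taut T S X i x
  | zero (X : 𝒱.Obj) (i : ℤ) : Taut T S X i 0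
  | one (X : 𝒱.Obj) : Taut T S X 0 1
  | add (X : 𝒱.Obj) (i : ℤ) (x y : T.A X) (hx : Taut T S X i x) (hy : Taut T S X i y) :
      Taut T S X i (x + y)
  | smul (X : 𝒱.Obj) (i : ℤ) (c : K) (x : T.A X) (hx : Taut T S X i x) : Taut T S X i (c • x)
  | mul (X : 𝒱.Obj) (i j : ℤ) (x y : T.A X) (hx : Taut T S X i x) (hy : Taut T S X j y) :
      Taut T S X (i + j) (T.mul x y)
  | pull (X Y : 𝒱.Obj) (f : X ⟶ Y) (i : ℤ) (y : T.A Y) (hy : Taut T S Y i y) :
      Taut T S X i (T.up f y)
  | push (X Y : 𝒱.Obj) (f : X ⟶ Y) (i : ℤ) (x : T.A X) (hx : Taut T S X i x) :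
      Taut T S Y (i + (Y.dim - X.dim)) (T.down f x)

/-- The tautological ring of `X`: the sums of tautological classes of all codimensions. -/
def tautRing (T : TheoryData.{u, w, v} 𝒱 K) (S : ∀ X : 𝒱.Obj, ℤ → Set (T.A X)) (X : 𝒱.Obj) :
    Submodule K (T.A X) := Submodule.span K {x | ∃ i, Taut T S X i x}

/-- On every variety in `𝒱` some tautological class has degree different from zero. -/
def Polarized (C : ChowTheory.{u, v, w} 𝒱 K) (S : ∀ X : 𝒱.Obj, ℤ → Set (C.A X)) : Prop :=
  ∀ X : 𝒱.Obj, HasDeg (tautRing C.toTheoryData S X) (C.deg X)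

/-- `IsPower X Y`: the variety `Y` is an iterated product of copies of `X`. -/
inductive IsPower (X : 𝒱.Obj) : 𝒱.Obj → Prop
  | self : IsPower X X
  | prod (Y Z : 𝒱.Obj) (hY : IsPower X Y) (hZ : IsPower X Z) : IsPower X (Y.prod Z)

variable {ops : CycleOps 𝒱} {W : WeilCohomology.{u, v} ops}

/-- Generators: for each variety `X` in `𝒱` and each `i`, any set of classes on `X`. -/
abbrev Gens (C : CycleTheory.{u, v, w} W) : Type _ := ∀ X : 𝒱.Obj, ℤ → Set (C.A X)

/-- The class `h` of codimension one satisfies the hard Lefschetz theorem. -/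
def IsLefschetz (C : CycleTheory.{u, v, w} W) (X : 𝒱.Obj) (h : C.A X) : Prop :=
  LefOf (W.gr X) X.dim (C.cl X) h

/-- The generators `S` are admissible for `X`: all varieties in the class `𝒱` are products of copies
of `X` and some tautological divisor class `h` on `X` satisfies the hard Lefschetz theorem (for
instance an ample class in `S`); or, more generally, on each variety in `𝒱` some tautological class
has degree different from zero. -/
def Admissible (C : CycleTheory.{u, v, w} W) (S : Gens C) (X : 𝒱.Obj) : Prop :=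
  ((∀ Y : 𝒱.Obj, IsPower X Y) ∧ ∃ h, Taut C.toTheoryData S X 1 h ∧ IsLefschetz C X h) ∨
    Polarized C.toChowTheory S

end Pool.Agent.V7H78.TC
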