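import Pool.Agent.V7H78.TC.GenM
import Pool.Agent.W492.BB.Defs

/-!
# Exterior and symmetric powers of motives: definitions
-/

open CategoryTheory

universe u v w

namespace Pool.Agent.V7H78.TC

open Pool.Agent.H914 Pool.Agent.H914.VarClass Pool.Agent.H914.VarClass.Obj Pool.Agent.W492.BB

variable {k : Type u} [Field k] {𝒱 : VarClass k} {K : Type v} [Field K]

/-- The exterior power `Λ^(n+1)(X, e)` of the motive `(X, e)` vanishes for some `n`: for all
varieties `Y` and all morphisms `x_i, y_j : Y ⟶ X` the determinant of the `n + 1` by `n + 1` matrix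
with the entries `(x_i, y_j)^* e` is zero. -/
def ExtVanishes (T : TheoryData.{u, w, v} 𝒱 K) (X : 𝒱.Obj) (e : T.A (X.prod X)) : Prop :=
  ∃ n : ℕ, ∀ (Y : 𝒱.Obj) (x y : Fin (n + 1) → (Y ⟶ X)),
    detOf (fun i j => T.up (Obj.lift (x i) (y j)) e) = 0

/-- The symmetric power `Sym^(n+1)(X, e)` of the motive `(X, e)` vanishes for some `n`: for all
varieties `Y` and all morphisms `x_i, y_j : Y ⟶ X` the permanent of the `n + 1` by `n + 1` matrix
with the entries `(x_i, y_j)^* e` is zero. -/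
def SymVanishes (T : TheoryData.{u, w, v} 𝒱 K) (X : 𝒱.Obj) (e : T.A (X.prod X)) : Prop :=
  ∃ n : ℕ, ∀ (Y : 𝒱.Obj) (x y : Fin (n + 1) → (Y ⟶ X)),
    permOf (fun i j => T.up (Obj.lift (x i) (y j)) e) = 0

end Pool.Agent.V7H78.TC
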