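import Mathlib

/-!
# Projectors
-/

open Module

namespace Pool.Agent.V7H78.TC

variable {K : Type*} {A : Type*} {H : Type*} [Field K] [Ring A] [Algebra K A] [Ring H]
  [Algebra K H]

/-- The elements `π i` are mutually orthogonal idempotents for the composition `comp`, zero for
`i > d`, with sum `e`. -/
structure IsOrth {B : Type*} [Ring B] (comp : B → B → B) (e : B) (d : ℕ) (π : ℕ → B) : Prop where
  out : ∀ i, d < i → π i = 0
  idem : ∀ i, comp (π i) (π i) = π i
  orth : ∀ i j, i ≠ j → comp (π i) (π j) = 0
  sum : ∑ i ∈ Finset.range (d + 1), π i = e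

/-- `f` acts as the identity in degree `i` and as zero in the degrees `j ≠ i`. -/
def ActsByProj (gr : ℕ → Submodule K H) (i : ℕ) (f : H →ₗ[K] H) : Prop :=
  ∀ j, ∀ a ∈ gr j, f a = if j = i then a else 0

end Pool.Agent.V7H78.TC
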