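import Pool.Agent.V7H78.TC.Defs
import Pool.Agent.V7H78.TC.GenD
import Pool.Agent.V7H78.TC.DefsM

/-!
# Tautological Chow-Kunneth decompositions: definitions
-/

open CategoryTheory
open scoped ENNReal

universe u v w

namespace Pool.Agent.V7H78.TC

open Pool.Agent.H914 Pool.Agent.H914.VarClass Pool.Agent.H914.VarClass.Obj Pool.Agent.W492.BB
  Pool.Agent.N132.IXS

variable {k : Type u} [Field k] {𝒱 : VarClass k} {K : Type v} [Field K]

/-- The ratio of the dimension of the tautological ring to its dimension modulo numerical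
equivalence. -/
noncomputable def tautRatio (C : ChowTheory.{u, v, w} 𝒱 K) (S : ∀ X : 𝒱.Obj, ℤ → Set (C.A X))
    (X : 𝒱.Obj) : ℝ≥0∞ :=
  ratioOf (tautRing C.toTheoryData S X) (tautRing C.toTheoryData S X) (C.deg X)

variable {ops : CycleOps 𝒱} {W : WeilCohomology.{u, v} ops}

/-- `π` is a Chow-Kunneth decomposition of `X` by tautological correspondences: mutually orthogonal
idempotent tautological self-correspondences `π i` of degree zero with sum the diagonal, where
`π i` acts as the identity on `H^i(X)` and as zero on `H^j(X)`, `j ≠ i`. -/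
structure IsTautCK (C : CycleTheory.{u, v, w} W) (S : Gens C) (X : 𝒱.Obj)
    (π : ℕ → C.A (X.prod X)) : Prop where
  taut : ∀ i, Taut C.toTheoryData S (X.prod X) X.dim (π i)
  isOrth : IsOrth C.comp (C.graph (𝟙 X)) (2 * X.dim) π
  act : ∀ i, ActsByProj (W.gr X) i (W.corr (valOf (C.cl _) (π i)))

/-- The Chow motive of `X` is finite-dimensional in the sense of Kimura: some exterior power of the
even part of the decomposition `π` and some symmetric power of the odd part vanish. -/
def IsKimura (T : TheoryData.{u, w, v} 𝒱 K) (X : 𝒱.Obj) (π : ℕ → T.A (X.prod X)) : Prop :=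
  ExtVanishes T X (∑ i ∈ Finset.range (X.dim + 1), π (2 * i)) ∧
    SymVanishes T X (∑ i ∈ Finset.range (X.dim + 1), π (2 * i + 1))

end Pool.Agent.V7H78.TC
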