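import Mathlib

/-!
# Numerically trivial elements
-/

open Module

namespace Pool.Agent.V7H78.TC

variable {K : Type*} {A : Type*} {H : Type*} [Field K] [Ring A] [Algebra K A] [Ring H]
  [Algebra K H]

/-- `R` is finite-dimensional and `c` and `f` vanish on all `x ∈ R` with `deg (x y) = 0` for all
`y ∈ R`. -/
def FinNum {B : Type*} [Ring B] (R : Submodule K A) (deg : A → K) (c : A →ₐ[K] H) (f : A → B) :
    Prop :=
  R.FG ∧ ∀ x ∈ R, (∀ y ∈ R, deg (x * y) = 0) → c x = 0 ∧ f x = 0

end Pool.Agent.V7H78.TC
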