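import Pool.Agent.V7H78.TC.Defs
import Pool.Agent.V7H78.TC.GenE

/-!
# Small tautological rings: definitions
-/

universe u v w

namespace Pool.Agent.V7H78.TC

open Pool.Agent.H914 Pool.Agent.H914.VarClass Pool.Agent.H914.VarClass.Obj Pool.Agent.W492.BB
  Pool.Agent.N132.IXS

variable {k : Type u} [Field k] {𝒱 : VarClass k} {ops : CycleOps 𝒱}
  {W : WeilCohomology.{u, v} ops}

/-- The tautological ring of `X` is finite-dimensional and every tautological class `x` on `X` with
`deg (x y) = 0` for all tautological `y` is homologically trivial and its external power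
`x × ⋯ × x` with `d + 1` factors is zero. -/
def SmallNum (C : CycleTheory.{u, v, w} W) (S : Gens C) (X : 𝒱.Obj) (d : ℕ) :
    Prop := FinNum (tautRing C.toTheoryData S X) (C.deg X) (C.cl X) fun x =>
      ChowTheory.xpow (C := C.toChowTheory) x d

end Pool.Agent.V7H78.TC
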