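import Pool.Agent.V7H78.TC.Gen

/-!
# Algebras with a homomorphism
-/

open Module
open scoped ENNReal

namespace Pool.Agent.V7H78.TC

variable {K : Type*} {A : Type*} {H : Type*} [Field K] [Ring A] [Algebra K A] [Ring H]
  [Algebra K H]

/-- The elements of `R` in the kernel of `c`. -/
def kerOf (c : A →ₐ[K] H) (R : Submodule K A) : Submodule K A := R ⊓ LinearMap.ker c.toLinearMap

/-- The ratio of the dimension of the kernel of `c` on `R` to the dimension of `R` modulo its
numerically trivial elements. -/
noncomputable def kerRatioOf (c : A →ₐ[K] H) (R : Submodule K A) (deg : A → K) : ℝ≥0∞ :=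
  ratioOf (kerOf c R) R deg

/-- `c` is injective on `R`. -/
def InjOf (c : A →ₐ[K] H) (R : Submodule K A) : Prop := ∀ x ∈ kerOf c R, x = 0

/-- The kernel of `c` on `R` is finite-dimensional and `f` vanishes on it. -/
def FinNil {B : Type*} [Ring B] (c : A →ₐ[K] H) (R : Submodule K A) (f : A → B) : Prop :=
  (kerOf c R).FG ∧ ∀ x ∈ kerOf c R, f x = 0

/-- The graded pieces of odd degree are zero. -/
def OddZero (gr : ℕ → Submodule K H) : Prop := ∀ i, Odd i → gr i = ⊥

/-- `f` acts as multiplication by the integer `c i` in degree `i`. -/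
def ActsBy (gr : ℕ → Submodule K H) (c : ℕ → ℤ) (f : H →ₗ[K] H) : Prop :=
  ∀ i, ∀ a ∈ gr i, f a = c i • a

end Pool.Agent.V7H78.TC
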