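import Pool.Agent.V7H78.TC.Defs
import Pool.Agent.V7H78.TC.GenK
import Pool.Agent.V7H78.TC.DefsM

/-!
# Homologically trivial tautological classes: definitions
-/

open scoped ENNReal
open CategoryTheory

universe u v w

namespace Pool.Agent.V7H78.TC

open Pool.Agent.H914 Pool.Agent.H914.VarClass Pool.Agent.H914.VarClass.Obj Pool.Agent.W492.BB
  Pool.Agent.N132.IXS

variable {k : Type u} [Field k] {𝒱 : VarClass k} {ops : CycleOps 𝒱}
  {W : WeilCohomology.{u, v} ops}

/-- The ratio of the dimension of the space of homologically trivial classes in the tautological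
ring of `X` to the dimension of the tautological ring modulo numerical equivalence. -/
noncomputable def kerRatio (C : CycleTheory.{u, v, w} W) (S : Gens C) (X : 𝒱.Obj) : ℝ≥0∞ :=
  kerRatioOf (C.cl X) (tautRing C.toTheoryData S X) (C.deg X)

/-- The cycle class map is injective on the tautological ring of `X`. -/
def ClInjective (C : CycleTheory.{u, v, w} W) (S : Gens C) (X : 𝒱.Obj) :
    Prop := InjOf (C.cl X) (tautRing C.toTheoryData S X)

/-- The space of homologically trivial tautological classes on `X` is finite-dimensional and the
external power `x × ⋯ × x` with `d + 1` factors of each such class `x` is zero. -/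
def SmallKer (C : CycleTheory.{u, v, w} W) (S : Gens C) (X : 𝒱.Obj) (d : ℕ) :
    Prop := FinNil (C.cl X) (tautRing C.toTheoryData S X) fun x =>
      ChowTheory.xpow (C := C.toChowTheory) x d

/-- `z` is a tautological self-correspondence of degree zero which acts on `H^i(X)` as
multiplication by the integer `c i`, for all `i`. -/
def TautActs (C : CycleTheory.{u, v, w} W) (S : Gens C) (X : 𝒱.Obj)
    (c : ℕ → ℤ) (z : C.A (X.prod X)) : Prop :=
  Taut C.toTheoryData S (X.prod X) X.dim z ∧ ActsBy (W.gr X) c (W.corr (valOf (C.cl _) z))

/-- `p` is an idempotent tautological self-correspondence of degree zero which acts as the identity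
on `H^i(X)` for even `i` and as zero for odd `i`. -/
def IsEvenPart (C : CycleTheory.{u, v, w} W) (S : Gens C) (X : 𝒱.Obj)
    (p : C.A (X.prod X)) : Prop :=
  TautActs C S X (fun i => if Even i then 1 else 0) p ∧ C.comp p p = p

/-- Some exterior power of the motive `(X, p)` and some symmetric power of the complementary motive
`(X, Δ - p)` vanish. -/
def EvenOdd {K : Type v} [Field K] (C : ChowTheory.{u, v, w} 𝒱 K) (X : 𝒱.Obj)
    (p : C.A (X.prod X)) : Prop :=
  ExtVanishes C.toTheoryData X p ∧ SymVanishes C.toTheoryData X (C.graph (𝟙 X) - p)

end Pool.Agent.V7H78.TC
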