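import Pool.Agent.V7H78.TC.Kim4

/-!
# The growth laws: final form
-/

set_option linter.unusedSectionVars false

open CategoryTheory AlgebraicGeometry Module Filter Topology
open scoped ENNReal

universe u v w x

namespace Pool.Agent.V7H78.TC

open Pool.Agent.H914 Pool.Agent.H914.VarClass Pool.Agent.H914.VarClass.Obj Pool.Agent.W492.BB
  Pool.Agent.Y133.Half Pool.Agent.H914.WeilCohomology Pool.Agent.N132 Pool.Agent.W550.Corr
  Pool.Agent.V7H5.AJ
open Pool.Agent.N132.IXS (ChowTheory CycleTheory conv Commutes)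

variable {k : Type u} [Field k] {𝒱 : VarClass k} {ops : CycleOps 𝒱}
  {W : WeilCohomology.{u, v} ops}

variable {C : CycleTheory.{u, v, w} W} {S : ∀ X : 𝒱.Obj, ℤ → Set (C.A X)} {X : 𝒱.Obj}

lemma Admissible.polarized (h : Admissible C S X) : Polarized C.toChowTheory S := by
  rcases h with ⟨h1, h, h2, h3⟩ | h
  · exact polarized_of_power h1 h2 h3
  · exact h

/-- The diagonal is tautological. -/
lemma taut_graph {Y Z : 𝒱.Obj} (f : Y ⟶ Z) :
    Taut C.toTheoryData S (Y.prod Z) Z.dim (C.graph f) := by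
  have h := Taut.push (T := C.toTheoryData) (S := S) Y (Y.prod Z) (Obj.lift (𝟙 Y) f) 0 1
    (Taut.one Y)
  have e1 : (0 : ℤ) + (((Y.prod Z).dim : ℤ) - (Y.dim : ℤ)) = Z.dim := by
    rw [dim_prod]; push_cast; ring
  rw [e1] at h
  exact h

lemma cl_graph_act (a : W.H X) : W.corr (C.cl _ (C.graph (𝟙 X))) a = a := by
  have h1 := (conv C).rho_dg X
  exact LinearMap.congr_fun h1 a

/-- If the odd cohomology vanishes then the diagonal acts by the signs. -/
lemma sign_of_even (h : ∀ i, Odd i → W.gr X i = ⊥) :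
    ActsBySign (W.gr X) (W.corr (C.cl _ (C.graph (𝟙 X)))) := by
  intro i a ha
  rw [cl_graph_act]
  rcases Nat.even_or_odd i with hi | hi
  · rw [hi.neg_one_pow, one_smul]
  · rw [h i hi, Submodule.mem_bot] at ha
    rw [ha, smul_zero]

/-- The even and the odd part of the motive. -/
lemma kimura_even (hS : Admissible C S X) {d : ℕ}
    (hfil : ∀ n, filG (TT hS.polarized) X ((fam (hmap hS.polarized)).G X) d n = ⊥)
    {z : C.A (X.prod X)} (hz : Taut C.toTheoryData S (X.prod X) X.dim z)
    (hz' : ActsBySign (W.gr X) (W.corr (C.cl _ z))) :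
    ∃ p, IsEvenPart C S X p ∧ EvenOdd C.toChowTheory X p ∧
      (OddZero (W.gr X) → p = C.graph (𝟙 X)) := by
  classical
  have hG : ∀ n x, (TT hS.polarized).cl (pw X n) x = 0 →
      x ∈ (fam (hmap hS.polarized)).G X n := fun n x hx => (mem_tker (hmap hS.polarized)).2 hx
  have hno : NoPh X (TT hS.polarized) := noPh_of_filG hG hfil
  obtain ⟨e, h1, h2, h3, h4⟩ := exists_even (C := TT hS.polarized) hG hfil
    (z := mk hS.polarized z (taut_mem hz)) hz (fun i a ha => hz' i a ha)
  have hD : ∀ a : W.H X, (TT hS.polarized).rho X X (dg (TT hS.polarized).toTheoryData X) a = a := by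
    intro a
    rw [(TT hS.polarized).rho_dg]
    rfl
  refine ⟨vv hS.polarized e, ⟨⟨h1, fun i a ha => ?_⟩, congrArg (vv hS.polarized) h2⟩, ⟨?_, ?_⟩, ?_⟩
  · refine (h4 i a ha).trans ?_
    change _ = (if Even i then (1 : ℤ) else 0) • a
    by_cases hi : Even i
    · rw [if_pos hi, if_pos hi, one_smul]
    · rw [if_neg hi, if_neg hi, zero_smul]
  · refine ext_of_gdT hS.polarized (van_of_noPh hno true h2 (cl_par true ?_))
    intro j a ha
    have h5 := h4 j a ha
    rw [IX.CycleTheory.rho_apply] at h5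
    rw [h5]
    unfold ParN
    simp
  · have key := sym_of_gdT hS.polarized (van_of_noPh hno false h3 (cl_par false ?_))
    · exact key
    · intro j a ha
      have h5 : (TT hS.polarized).rho X X (dg (TT hS.polarized).toTheoryData X - e) a =
          a - if Even j then a else 0 := by
        rw [map_sub, LinearMap.sub_apply, hD, h4 j a ha]
      rw [IX.CycleTheory.rho_apply] at h5
      rw [h5]
      unfold ParN
      by_cases hj : Even j
      · simp [hj, Nat.not_odd_iff_even.2 hj]
      · simp [hj, Nat.not_even_iff_odd.1 hj]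
  · intro h
    have h7 : (TT hS.polarized).cl _ (dg (TT hS.polarized).toTheoryData X - e) = 0 := by
      apply (TT hS.polarized).rho_eq_zero.1
      apply ext_gr
      intro i a ha
      rw [map_sub, LinearMap.sub_apply, hD, h4 i a ha]
      by_cases hi : Even i
      · rw [if_pos hi, sub_self]
        rfl
      · rw [h i (Nat.not_even_iff_odd.1 hi), Submodule.mem_bot] at ha
        rw [ha, if_neg hi, sub_zero, map_zero]
    have h6 : dg (TT hS.polarized).toTheoryData X - e = 0 := hno 0 _ h3 h7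
    exact (congrArg (vv hS.polarized) (sub_eq_zero.1 h6)).symm

/-- **The growth law.** -/
theorem kernel_law (hS : Admissible C S X) : ∃ L : ℝ≥0∞,
    Tendsto (fun n => kerRatio C S (pw X n)) atTop (𝓝 L) ∧
    (L = 0 ↔ ∀ n, ClInjective C S (pw X n)) ∧
    (L = 0 ∨ 1 ≤ L) ∧
    (∀ d : ℕ, L < d + 1 → ∀ n, SmallKer C S (pw X n) d) ∧
    (OddZero (W.gr X) ∨ (∃ z, TautActs C S X (fun i => (-1) ^ i) z) → (∃ N : ℕ∞, L = N) ∧
      (L < ⊤ → ∃ p, IsEvenPart C S X p ∧ EvenOdd C.toChowTheory X p ∧
        (OddZero (W.gr X) → p = C.graph (𝟙 X)))) := by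
  obtain ⟨L, h1, h2, h3, h4, h5, h6⟩ := kernels hS.polarized X
  refine ⟨L, h1, h2, h3, h4, fun h => ?_⟩
  obtain ⟨z, hz, hz'⟩ : ∃ z, Taut C.toTheoryData S (X.prod X) X.dim z ∧
      ActsBySign (W.gr X) (W.corr (C.cl _ z)) := by
    rcases h with h | h
    · exact ⟨_, taut_graph (𝟙 X), sign_of_even h⟩
    · obtain ⟨z, hz, hz'⟩ := h
      refine ⟨z, hz, fun i a ha => ?_⟩
      refine (hz' i a ha).trans ?_
      change ((-1 : ℤ) ^ i) • a = (-1 : W.K) ^ i • a
      rcases Nat.even_or_odd i with hi | hi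
      · rw [hi.neg_one_pow, hi.neg_one_pow, one_smul, one_smul]
      · rw [hi.neg_one_pow, hi.neg_one_pow, neg_one_smul, neg_one_smul]
  refine ⟨h5 ⟨z, hz, hz'⟩, fun hL => ?_⟩
  obtain ⟨d, hd⟩ : ∃ d : ℕ, L < d + 1 := by
    obtain ⟨d, hd⟩ := ENNReal.exists_nat_gt hL.ne
    exact ⟨d, hd.trans_le le_self_add⟩
  exact kimura_even hS (h6 d hd) hz hz'

/-- **The dichotomy.** -/
theorem dichotomy_law (hS : Admissible C S X) {h : C.A X} (hh : Taut C.toTheoryData S X 1 h)
    (hL : IsLefschetz C X h) :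
    Tendsto (fun n => tautRatio C.toChowTheory S (pw X n)) atTop (𝓝 ⊤) ∨
    ∃ N : ℕ, 1 ≤ N ∧ Tendsto (fun n => tautRatio C.toChowTheory S (pw X n)) atTop (𝓝 N) ∧
      (∃ π, IsTautCK C S X π ∧ IsKimura C.toTheoryData X π) ∧
      ∀ n, SmallNum C S (pw X n) (N - 1) := by
  rcases dichotomy hS.polarized hh hL with h1 | ⟨N, h1, h2, ⟨π, hπ⟩, h4, h5⟩
  · exact Or.inl h1
  · right
    refine ⟨N, h1, h2, ⟨fun i => vv hS.polarized (π i), tautCK_of hS.polarized hπ, ?_, ?_⟩, h5⟩
    · have hno : NoPh X (TT hS.polarized) := noPh_of_ncomp (by omega) h4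
      have key := ext_of_gdT hS.polarized (van_of_noPh hno true (parS_idem hπ)
        (cl_par true (parS_act hπ)))
      have e1 : vv hS.polarized (parS X true π) =
          ∑ i ∈ Finset.range (X.dim + 1), vv hS.polarized (π (2 * i)) := by
        unfold parS
        rw [vv_sum]
        simp
      rw [e1] at key
      exact key
    · have hno : NoPh X (TT hS.polarized) := noPh_of_ncomp (by omega) h4
      have key := sym_of_gdT hS.polarized (van_of_noPh hno false (parS_idem hπ)
        (cl_par false (parS_act hπ)))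
      have e1 : vv hS.polarized (parS X false π) =
          ∑ i ∈ Finset.range (X.dim + 1), vv hS.polarized (π (2 * i + 1)) := by
        unfold parS
        rw [vv_sum]
        simp
      rw [e1] at key
      exact key

end Pool.Agent.V7H78.TC
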