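import Mathlib
import Pool.Agent.H914R2.LefDefs

/-!
# Graded algebras with a degree function
-/

open Module
open scoped ENNReal

namespace Pool.Agent.V7H78.TC

variable {K : Type*} {A : Type*} {H : Type*} [Field K] [Ring A] [Algebra K A] [Ring H]
  [Algebra K H]

/-- The numerically trivial elements of `R`: the span of the `x ∈ R` with `deg (x y) = 0` for all
`y ∈ R`. -/
def numOf (R : Submodule K A) (deg : A → K) : Submodule K A :=
  Submodule.span K {x | x ∈ R ∧ ∀ y ∈ R, deg (x * y) = 0}

/-- The dimension of `R` modulo its numerically trivial elements. -/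
noncomputable def rankOf (R : Submodule K A) (deg : A → K) : ℕ :=
  finrank K (R ⧸ (numOf R deg).comap R.subtype)

/-- The ratio of the dimension of `T` to the dimension of `R` modulo its numerically trivial
elements. -/
noncomputable def ratioOf (T R : Submodule K A) (deg : A → K) : ℝ≥0∞ :=
  Cardinal.toENat (Module.rank K T) / rankOf R deg

/-- Some element of `R` has degree different from zero. -/
def HasDeg (R : Submodule K A) (deg : A → K) : Prop := ∃ z ∈ R, deg z ≠ 0

/-- The value of the homomorphism `c` at `x`. -/
def valOf (c : A →ₐ[K] H) (x : A) : H := c x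

/-- Multiplication by `c x` satisfies the hard Lefschetz theorem on the graded algebra `H`. -/
def LefOf (gr : ℕ → Submodule K H) (d : ℕ) (c : A →ₐ[K] H) (x : A) : Prop :=
  Pool.Agent.H914.HardLef gr d (LinearMap.mulLeft K (valOf c x))

end Pool.Agent.V7H78.TC
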