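import Mathlib

/-!
# Determinants and permanents of matrices over rings
-/

namespace Pool.Agent.V7H78.TC

/-- The determinant `∑_σ sign(σ) M 1 (σ 1) ⋯ M n (σ n)`. -/
def detOf {B : Type*} [Ring B] {n : ℕ} (M : Fin n → Fin n → B) : B :=
  ∑ σ : Equiv.Perm (Fin n), (Equiv.Perm.sign σ : ℤ) • (List.ofFn fun i => M i (σ i)).prod

/-- The permanent `∑_σ M 1 (σ 1) ⋯ M n (σ n)`. -/
def permOf {B : Type*} [Ring B] {n : ℕ} (M : Fin n → Fin n → B) : B :=
  ∑ σ : Equiv.Perm (Fin n), (List.ofFn fun i => M i (σ i)).prod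

end Pool.Agent.V7H78.TC
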