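import Pool.Agent.V7H78.TC.Main

/-!
# The growth of the homologically trivial tautological classes
-/

set_option linter.unusedSectionVars false

open CategoryTheory AlgebraicGeometry Module Filter Topology
open scoped ENNReal

universe u v w x

namespace Pool.Agent.V7H78.TC

open Pool.Agent.H914 Pool.Agent.H914.VarClass Pool.Agent.H914.VarClass.Obj Pool.Agent.W492.BB
  Pool.Agent.Y133.Half Pool.Agent.H914.WeilCohomology Pool.Agent.N132 Pool.Agent.W550.Corr
  Pool.Agent.V7H5.AJ
open Pool.Agent.N132.IXS (ChowTheory CycleTheory conv Commutes)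

section smash

open Pool.Agent.N132.IX

variable {k : Type u} [Field k] {𝒱 : VarClass k} {ops : CycleOps 𝒱}
  {W : WeilCohomology.{u, v} ops} {X : 𝒱.Obj} {C : IX.CycleTheory.{u, v, w} W}
  {G : ∀ n, Submodule W.K (C.A (pw X n))}

lemma pull_filG (hG : Stab C X G) {j m n : ℕ} (f : pw X n ⟶ pw X m) {y : C.A (pw X m)}
    (hy : y ∈ filG C X G j m) : C.pull f y ∈ filG C X G j n := by
  rw [← TheoryData.act_cograph]
  exact stab_filG hG j _ _ _ _ hy

lemma mul_filG {j n : ℕ} {x : C.A (pw X n)} (hx : IX.CycleTheory.NumTriv x) {y : C.A (pw X n)}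
    (hy : y ∈ filG C X G j n) : x * y ∈ filG C X G (j + 1) n := by
  rw [← TheoryData.act_mulCorr]
  exact act_filG (numTriv_push _ hx) hy

/-- The external powers of a numerically trivial class of the family. -/
lemma xpow_filG (hG : Stab C X G) {n : ℕ} {x : C.A (pw X n)} (hx : IX.CycleTheory.NumTriv x)
    (hxG : x ∈ G n) : ∀ j : ℕ,
    ∃ (q : ℕ) (θ : pw (pw X n) j ≅ pw X q), C.pull θ.inv (C.xpow x j) ∈ filG C X G j q
  | 0 => ⟨n, Iso.refl _, by
      have h : C.pull (Iso.refl (pw X n)).inv x = x := TheoryData.pull_id _ _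
      change C.pull (Iso.refl (pw X n)).inv x ∈ _
      rw [h, filG_zero]
      exact hxG⟩
  | j + 1 => by
    obtain ⟨q, θ, hθ⟩ := xpow_filG hG hx hxG j
    let φ : (pw (pw X n) j).prod (pw X n) ≅ pw X (q + n + 1) :=
      prodCongr θ (Iso.refl _) ≪≫ pwAdd X q n
    refine ⟨q + n + 1, φ, ?_⟩
    have e1 : φ.inv ≫ fst (pw (pw X n) j) (pw X n) = ((pwAdd X q n).inv ≫ fst _ _) ≫ θ.inv := by
      change ((pwAdd X q n).inv ≫ (prodCongr θ (Iso.refl _)).inv) ≫ _ = _
      rw [Category.assoc, Category.assoc]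
      congr 1
      exact Obj.lift_fst _ _
    have key : C.pull φ.inv (C.pull (fst (pw (pw X n) j) (pw X n)) (C.xpow x j) *
        C.pull (snd (pw (pw X n) j) (pw X n)) x) ∈ filG C X G (j + 1) (q + n + 1) := by
      rw [C.mul_comm, map_mul, ← TheoryData.pull_comp, ← TheoryData.pull_comp, e1,
        C.toTheoryData.pull_comp ((pwAdd X q n).inv ≫ fst _ _)]
      exact mul_filG (numTriv_pull _ hx) (pull_filG hG _ hθ)
    exact key

end smash

variable {k : Type u} [Field k] {𝒱 : VarClass k} {ops : CycleOps 𝒱}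
  {W : WeilCohomology.{u, v} ops} {C : CycleTheory.{u, v, w} W}
  {S : ∀ X : 𝒱.Obj, ℤ → Set (C.A X)} (hS : Polarized C.toChowTheory S) {X : 𝒱.Obj}

/-- The cohomology as a theory. -/
noncomputable def hdata (W : WeilCohomology.{u, v} ops) : TheoryData.{u, v, v} 𝒱 W.K where
  A := W.H
  gr X i := if 0 ≤ i then W.gr X i.toNat else ⊥
  pull := W.map
  push := W.push

/-- The cycle class map of the tautological classes. -/
noncomputable def hmap : CycleMap.{u, v, w, v} (tcycle C S hS).toChowTheory where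
  D := hdata W
  cl := (tcycle C S hS).cl
  commutes := (tcycle C S hS).commutes

/-- The homologically trivial classes in the tautological ring. -/
def tautKer (C : CycleTheory.{u, v, w} W) (S : ∀ X : 𝒱.Obj, ℤ → Set (C.A X)) (X : 𝒱.Obj) :
    Submodule W.K (C.A X) := kerOf (C.cl X) (tautRing C.toTheoryData S X)

/-- The two kernels. -/
noncomputable def kerEquiv (Y : 𝒱.Obj) :
    LinearMap.ker ((tcycle C S hS).cl Y).toLinearMap ≃ₗ[W.K] tautKer C S Y where
  toFun x := ⟨(tsub C.toChowTheory S Y).val x.1, vv_mem hS x.1, x.2⟩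
  invFun x := ⟨mk hS x.1 x.2.1, x.2.2⟩
  map_add' _ _ := rfl
  map_smul' _ _ := rfl
  left_inv _ := rfl
  right_inv _ := rfl

lemma ratio_eq (Y : 𝒱.Obj) : (hmap hS).ratio Y = kerRatio C S Y := by
  rw [CycleMap.ratio]
  have h1 : kerDim ((hmap hS).cl Y) = Cardinal.toENat (Module.rank W.K (tautKer C S Y)) := by
    rw [kerDim]
    exact congrArg Cardinal.toENat (kerEquiv hS Y).rank_eq
  have h2 : (tcycle C S hS).toChowTheory.numRank Y = rankOf (tautRing C.toTheoryData S Y) (C.deg Y) :=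
    numRank_eq Y
  rw [h1, h2]
  rfl

lemma of_cmp {j n : ℕ} {y : (TT hS).A (pw X n)}
    (h : Cmp (TT hS) X ((fam (hmap hS)).G X) j n y) : (hmap hS).Composite X j n y := by
  induction h with
  | zero n y hy => exact CycleMap.Composite.zero n y ((mem_tker (hmap hS)).1 hy)
  | succ j m n Γ hΓ y _ ih =>
    exact CycleMap.Composite.succ j m n Γ ((IXS.numTriv_conv (tcycle C S hS)).2 hΓ) y ih

include hS in
/-- **The growth law for the homologically trivial tautological classes.** -/
theorem kernels (X : 𝒱.Obj) : ∃ L : ℝ≥0∞,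
    Tendsto (fun n => kerRatio C S (pw X n)) atTop (𝓝 L) ∧
    (L = 0 ↔ ∀ n, ClInjective C S (pw X n)) ∧
    (L = 0 ∨ 1 ≤ L) ∧
    (∀ d : ℕ, L < d + 1 → ∀ n, SmallKer C S (pw X n) d) ∧
    ((∃ z, Taut C.toTheoryData S (X.prod X) X.dim z ∧ ActsBySign (W.gr X) (W.corr (C.cl _ z))) →
      ∃ N : ℕ∞, L = N) ∧
    ∀ d : ℕ, L < d + 1 → ∀ n, filG (TT hS) X ((fam (hmap hS)).G X) d n = ⊥ := by
  obtain ⟨L, h1, h2, h3, h4, h5⟩ := main (hmap hS) (X := X)
  have hfil : ∀ d : ℕ, L < d + 1 → ∀ q, filG (TT hS) X ((fam (hmap hS)).G X) d q = ⊥ := by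
    intro d hd q
    rw [filG, Submodule.span_eq_bot]
    intro y hy
    exact (h4 d hd).2 q y (of_cmp hS hy)
  refine ⟨L, h1.congr fun n => ratio_eq hS _, ?_, h3, fun d hd n => ?_, ?_, hfil⟩
  · rw [h2]
    constructor
    · intro h n x hx
      have := h n (mk hS x hx.1) hx.2
      exact congrArg (vv hS) this
    · intro h n x hx0
      have h1 : vv hS x ∈ tautKer C S (pw X n) := ⟨vv_mem hS x, hx0⟩
      exact vv_ext hS (h n _ h1)
  · obtain ⟨h6, h7⟩ := h4 d hd
    constructor
    · have h8 := h6 n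
      rw [kerDim, Ne, Cardinal.toENat_eq_top, not_le, Module.rank_lt_aleph0_iff] at h8
      have h9 : Module.Finite W.K (LinearMap.ker ((tcycle C S hS).cl (pw X n)).toLinearMap) := h8
      exact Module.Finite.iff_fg.1 (Module.Finite.equiv (kerEquiv hS (pw X n)))
    · intro x hx
      have hx0 : (TT hS).cl _ (mk hS x hx.1) = 0 := hx.2
      have hnum : IX.CycleTheory.NumTriv (mk hS x hx.1) := fun y => by
        rw [map_mul, hx0, zero_mul, map_zero]
      obtain ⟨q, θ, hθ⟩ := xpow_filG (C := TT hS) (X := X) (G := (fam (hmap hS)).G X)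
        ((fam (hmap hS)).stab X) hnum ((mem_tker (hmap hS)).2 hx0) d
      have h8 := hfil d hd q
      rw [h8, Submodule.mem_bot] at hθ
      have h9 : IX.CycleTheory.xpow (C := TT hS) (mk hS x hx.1) d = 0 :=
        (IX.pullEquiv (TT hS) θ.symm).injective
          (hθ.trans (map_zero (IX.pullEquiv (TT hS) θ.symm)).symm)
      have h10 := xpow_vv hS (mk hS x hx.1) d
      rw [h9] at h10
      exact h10.symm
  · rintro ⟨z, hz, hz'⟩
    exact h5 (Or.inl ⟨mk hS z (taut_mem hz), hz'⟩)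

end Pool.Agent.V7H78.TC
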