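import Pool.Agent.Y110.Van
import Pool.Agent.Y133.Half.PwDefs

/-!
# Determinants of correspondences and powers of a variety, with coefficients in any field
-/

open CategoryTheory AlgebraicGeometry

universe u v w

namespace Pool.Agent.V7H78.TC

open Pool.Agent.H914 Pool.Agent.H914.VarClass Pool.Agent.H914.VarClass.Obj Pool.Agent.W492.BB
  Pool.Agent.W550.Corr Pool.Agent.TH133 Pool.Agent.Y110 Pool.Agent.Y133.Half
open Pool.Agent.TH829.Kim (wt wt_mul)

set_option linter.unusedSectionVars false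

variable {k : Type u} [Field k] {𝒱 : VarClass k} {F : Type v} [Field F]

/-- The rings of the theory are commutative. -/
class CommT (T : TheoryData.{u, w, v} 𝒱 F) : Prop where
  comm : ∀ {X : 𝒱.Obj} (a b : T.A X), a * b = b * a

/-- The commutative rings of the theory. -/
noncomputable instance cRing (T : TheoryData.{u, w, v} 𝒱 F) [CommT T] (X : 𝒱.Obj) :
    CommRing (T.A X) := { T.ring X with mul_comm := CommT.comm }

section pow

variable {X P : 𝒱.Obj}

/-- The projections of `X^n × X`. -/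
noncomputable def snocPr {n : ℕ} (pr : Fin n → (P ⟶ X)) : Fin (n + 1) → (P.prod X ⟶ X) :=
  Fin.snoc (α := fun _ => (P.prod X ⟶ X)) (fun i => fst P X ≫ pr i) (snd P X)

lemma snocPr_last {n : ℕ} (pr : Fin n → (P ⟶ X)) : snocPr pr (Fin.last n) = snd P X := by
  simp [snocPr]

lemma snocPr_castSucc {n : ℕ} (pr : Fin n → (P ⟶ X)) (i : Fin n) :
    snocPr pr i.castSucc = fst P X ≫ pr i := by
  simp [snocPr]

lemma isPow_snoc {n : ℕ} {pr : Fin n → (P ⟶ X)} (h : IsPow pr) : IsPow (snocPr pr) where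
  exists_lift W f := by
    obtain ⟨g, hg⟩ := h.exists_lift W (fun i => f i.castSucc)
    refine ⟨Obj.lift g (f (Fin.last n)), fun i => ?_⟩
    refine Fin.lastCases ?_ (fun i => ?_) i
    · rw [snocPr_last, lift_snd]
    · rw [snocPr_castSucc, lift_fst_assoc, hg]
  ext W f g h1 := by
    apply prod_ext
    · apply h.ext
      intro i
      have := h1 i.castSucc
      rwa [snocPr_castSucc, ← Category.assoc, ← Category.assoc] at this
    · have := h1 (Fin.last n)
      rwa [snocPr_last] at this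

end pow

section chow

variable {T : TheoryData.{u, w, v} 𝒱 F} [hT : IsTheory T 1] [hI : HasIso T] [hc : CommT T]
  {X Y Z W V P : 𝒱.Obj}

include hT hI hc

/-- The value `p(x, y)` of the correspondence `p` at the points `x`, `y`. -/
noncomputable def evT (p : T.A (X.prod X)) (x y : W ⟶ X) : T.A W := T.pull (Obj.lift x y) p

lemma pull_evT (g : V ⟶ W) (p : T.A (X.prod X)) (x y : W ⟶ X) :
    T.pull g (evT p x y) = evT p (g ≫ x) (g ≫ y) := by
  rw [evT, evT, ← T.pull_comp, comp_lift]

lemma evT_univ (p : T.A (X.prod X)) : evT p (fst X X) (snd X X) = p := by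
  rw [evT, lift_eta, T.pull_id]

/-- The determinant (`s = true`) or permanent (`s = false`) of the matrix with entries
`p (x i, y j)`. -/
noncomputable def gdT (s : Bool) (p : T.A (X.prod X)) {n : ℕ} (x y : Fin n → (W ⟶ X)) : T.A W :=
  ∑ σ : Equiv.Perm (Fin n), wt s σ • ∏ i, evT p (x i) (y (σ i))

lemma pull_gdT (s : Bool) (g : V ⟶ W) (p : T.A (X.prod X)) {n : ℕ} (x y : Fin n → (W ⟶ X)) :
    T.pull g (gdT s p x y) = gdT s p (fun i => g ≫ x i) (fun i => g ≫ y i) := by
  rw [gdT, gdT, map_sum]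
  apply Finset.sum_congr rfl
  intro σ _
  rw [map_zsmul, map_prod]
  simp only [pull_evT]

/-- The power `e × ⋯ × e`, a self-correspondence of the power. -/
noncomputable def epowT {n : ℕ} (pr : Fin n → (P ⟶ X)) (e : T.A (X.prod X)) : T.A (P.prod P) :=
  ∏ i, evT e (fst P P ≫ pr i) (snd P P ≫ pr i)

/-- The self-correspondence of the power given by a permutation. -/
noncomputable def GT {n : ℕ} {pr : Fin n → (P ⟶ X)} (h : IsPow pr)
    (σ : Equiv.Perm (Fin n)) : T.A (P.prod P) :=
  T.pull (prodMap (𝟙 P) (h.perm σ)) (dg T P)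

lemma G_mul_eqT {n : ℕ} {pr : Fin n → (P ⟶ X)} (h : IsPow pr)
    (σ : Equiv.Perm (Fin n)) (Γ : T.A (P.prod P)) :
    T.comp Γ (GT h σ) = T.pull (prodMap (𝟙 P) (h.perm σ)) Γ := by
  have h1 := comp_pullR T (X := P) (Y := P) (Z := P) (W := P) Γ (dg T P) (h.perm σ) (h.perm σ⁻¹)
    (h.perm_inv σ) (h.perm_inv' σ)
  rw [comp_dg] at h1
  exact h1

lemma mul_G_eqT {n : ℕ} {pr : Fin n → (P ⟶ X)} (h : IsPow pr)
    (σ : Equiv.Perm (Fin n)) (Γ : T.A (P.prod P)) :
    T.comp (GT h σ) Γ = T.pull (prodMap (h.perm σ⁻¹) (𝟙 P)) Γ := by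
  have h0 : T.pull (prodMap (𝟙 P) (h.perm σ)) (dg T P) =
      T.pull (prodMap (h.perm σ⁻¹) (𝟙 P)) (dg T P) := by
    conv_lhs => rw [← pull_dg T (h.perm σ⁻¹) (h.perm σ) (h.perm_inv' σ) (h.perm_inv σ)]
    rw [← T.pull_comp, prodMap_comp, h.perm_inv, Category.id_comp]
  have h1 := comp_pullL T (X := P) (Y := P) (Z := P) (W := P) Γ (dg T P) (h.perm σ⁻¹) (h.perm σ)
    (h.perm_inv' σ) (h.perm_inv σ)
  rw [dg_comp, ← h0] at h1
  exact h1

lemma G_mulT {n : ℕ} {pr : Fin n → (P ⟶ X)} (h : IsPow pr)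
    (σ τ : Equiv.Perm (Fin n)) : T.comp (GT h τ) (GT h σ) = GT h (σ * τ) := by
  rw [G_mul_eqT]
  unfold GT
  rw [← T.pull_comp, prodMap_comp, Category.comp_id, h.perm_comp]

lemma G_mul_epowT {n : ℕ} {pr : Fin n → (P ⟶ X)} (h : IsPow pr)
    (σ : Equiv.Perm (Fin n)) (e : T.A (X.prod X)) : T.comp (epowT pr e) (GT h σ) =
      ∏ i, evT e (fst P P ≫ pr i) (snd P P ≫ pr (σ i)) := by
  rw [G_mul_eqT]
  unfold epowT
  rw [map_prod]
  apply Finset.prod_congr rfl
  intro i _
  rw [pull_evT, prodMap_fst_assoc, prodMap_snd_assoc, h.perm_pr, Category.id_comp]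

lemma epow_mul_GT {n : ℕ} {pr : Fin n → (P ⟶ X)} (h : IsPow pr)
    (σ : Equiv.Perm (Fin n)) (e : T.A (X.prod X)) : T.comp (GT h σ) (epowT pr e) =
      T.comp (epowT pr e) (GT h σ) := by
  rw [G_mul_epowT, mul_G_eqT]
  unfold epowT
  rw [map_prod, ← Equiv.prod_comp σ]
  apply Finset.prod_congr rfl
  intro i _
  rw [pull_evT, prodMap_fst_assoc, prodMap_snd_assoc, h.perm_pr, Category.id_comp]
  congr 3
  exact σ.symm_apply_apply i

omit hT hI hc in
/-- The self-correspondences of `X`. -/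
def CorT (T : TheoryData.{u, w, v} 𝒱 F) (X : 𝒱.Obj) : Type w := T.A (X.prod X)

noncomputable instance (T : TheoryData.{u, w, v} 𝒱 F) (X : 𝒱.Obj) : AddCommGroup (CorT T X) :=
  inferInstanceAs (AddCommGroup (T.A (X.prod X)))

/-- The ring of self-correspondences, with the composition of operators as product. -/
noncomputable instance corRing (T : TheoryData.{u, w, v} 𝒱 F) [IsTheory T 1] [HasIso T]
    (X : 𝒱.Obj) : Ring (CorT T X) :=
  { (inferInstance : AddCommGroup (CorT T X)) with
    mul := fun a b => T.comp (X := X) (Y := X) (Z := X) b a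
    one := dg T X
    mul_assoc := fun a b c =>
      (comp_assoc T (X := X) (Y := X) (Z := X) (W := X) c b a).symm
    one_mul := fun a => comp_dg T (X := X) (Y := X) a
    mul_one := fun a => dg_comp T (X := X) (Y := X) a
    left_distrib := fun a b c => add_comp T (X := X) (Y := X) (Z := X) b c a
    right_distrib := fun a b c => comp_add T (X := X) (Y := X) (Z := X) c a b
    zero_mul := fun a => comp_zero T (X := X) (Y := X) (Z := X) a
    mul_zero := fun a => zero_comp T (X := X) (Y := X) (Z := X) a }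

/-- The determinant of an idempotent at the universal points is, up to a factor, idempotent. -/
lemma gdT_mul {n : ℕ} {pr : Fin n → (P ⟶ X)} (h : IsPow pr) (s : Bool)
    {e : T.A (X.prod X)} (he : T.comp (epowT pr e) (epowT pr e) = epowT pr e) {D : CorT T P}
    (hD : D = gdT s e (fun i => fst P P ≫ pr i) (fun i => snd P P ≫ pr i)) :
    D * D = (Fintype.card (Equiv.Perm (Fin n)) : ℕ) • D := by
  let G : Equiv.Perm (Fin n) → CorT T P := fun σ => GT h σ
  let E : CorT T P := epowT pr e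
  have hG : ∀ σ τ, G σ * G τ = G (σ * τ) := fun σ τ => G_mulT h σ τ
  have hGE : ∀ σ, E * G σ = G σ * E := fun σ => epow_mul_GT h σ e
  have hE : E * E = E := he
  have h1 : D = ∑ σ : Equiv.Perm (Fin n), wt s σ • (G σ * E) := by
    rw [hD, gdT]
    apply Finset.sum_congr rfl
    intro σ _
    have h2 : G σ * E = (∏ i, evT e (fst P P ≫ pr i) (snd P P ≫ pr (σ i)) : T.A (P.prod P)) :=
      G_mul_epowT h σ e
    rw [h2]
    rfl
  have h2 : ∀ σ τ : Equiv.Perm (Fin n), (G σ * E) * (G τ * E) = G (σ * τ) * E := by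
    intro σ τ
    rw [mul_assoc, ← mul_assoc E, hGE, mul_assoc (G τ), hE, ← mul_assoc, hG]
  have h3 : D * D = ∑ σ : Equiv.Perm (Fin n), ∑ τ : Equiv.Perm (Fin n),
      wt s (σ * τ) • (G (σ * τ) * E) := by
    conv_lhs => rw [h1]
    rw [Finset.sum_mul_sum]
    apply Finset.sum_congr rfl
    intro σ _
    apply Finset.sum_congr rfl
    intro τ _
    rw [smul_mul_smul_comm, h2, wt_mul]
  rw [h3]
  have h4 : ∀ σ : Equiv.Perm (Fin n), ∑ τ : Equiv.Perm (Fin n),
      wt s (σ * τ) • (G (σ * τ) * E) = D := by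
    intro σ
    rw [h1]
    exact Equiv.sum_comp (Equiv.mulLeft σ) (fun τ => wt s τ • (G τ * E))
  rw [Finset.sum_congr rfl (fun σ _ => h4 σ), Finset.sum_const, Finset.card_univ]

/-- The existence of powers. -/
lemma exists_powT (X : 𝒱.Obj) (n : ℕ) :
    ∃ pr : Fin (n + 1) → (pw X n ⟶ X), IsPow pr ∧ ∀ e : T.A (X.prod X), T.comp e e = e →
        T.comp (epowT pr e) (epowT pr e) = epowT pr e := by
  induction n with
  | zero =>
    refine ⟨fun _ => 𝟙 X, isPow_one X, fun e he => ?_⟩
    have h1 : epowT (P := X) (fun _ : Fin (0 + 1) => 𝟙 X) e = e := by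
      unfold epowT
      rw [Fin.prod_univ_succ, Fin.prod_univ_zero, mul_one, Category.comp_id, Category.comp_id,
        evT_univ]
    change T.comp (epowT (P := X) (fun _ : Fin (0 + 1) => 𝟙 X) e)
      (epowT (P := X) (fun _ : Fin (0 + 1) => 𝟙 X) e) = epowT (P := X) (fun _ : Fin (0 + 1) => 𝟙 X) e
    rw [h1, he]
  | succ n ih =>
    obtain ⟨pr, h, hE⟩ := ih
    refine ⟨snocPr pr, isPow_snoc h, fun e he => ?_⟩
    have h1 : epowT (snocPr pr) e = tens T (epowT pr e) e := by
      unfold epowT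
      rw [Fin.prod_univ_castSucc, tens, map_prod]
      congr 1
      · apply Finset.prod_congr rfl
        intro i _
        rw [pull_evT, prodMap_fst_assoc, prodMap_snd_assoc, snocPr_castSucc]
      · rw [snocPr_last]
        rfl
    change T.comp (epowT (P := (pw X n).prod X) (snocPr pr) e)
      (epowT (P := (pw X n).prod X) (snocPr pr) e) = epowT (P := (pw X n).prod X) (snocPr pr) e
    rw [h1, tens_comp T CommT.comm, hE e he, he]

end chow

end Pool.Agent.V7H78.TC
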