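import Mathlib

/-!
# Lifting orthogonal idempotents along the action of correspondences
-/

open MulOpposite

namespace Pool.Agent.V7H78.TC

variable {K A H : Type*} [Field K] [AddCommGroup A] [Module K A] [AddCommGroup H] [Module K H]

/-- An associative composition `c a b` on `A` with unit `δ`, a subspace `G` closed under it, and an
anti-representation `ρ` on `H`. -/
structure IsCalc (c : A →ₗ[K] Module.End K A) (δ : A) (G : Submodule K A)
    (ρ : A →ₗ[K] Module.End K H) : Prop where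
  right : ∀ a, c a δ = a
  left : c δ = 1
  assoc : ∀ a b, c (c a b) = c a * c b
  mem : ∀ a ∈ G, ∀ b ∈ G, c a b ∈ G
  unit : δ ∈ G
  rho_mul : ∀ a b, ρ (c a b) = ρ b * ρ a
  rho_unit : ρ δ = 1

namespace IsCalc

variable {c : A →ₗ[K] Module.End K A} {δ : A} {G : Submodule K A} {ρ : A →ₗ[K] Module.End K H}
  (h : IsCalc c δ G ρ)

include h

/-- The algebra of the composition operators. -/
def alg : Subalgebra K (Module.End K A) where
  carrier := {φ | ∃ a ∈ G, c a = φ}
  mul_mem' := by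
    rintro _ _ ⟨a, ha, rfl⟩ ⟨b, hb, rfl⟩
    exact ⟨c a b, h.mem a ha b hb, h.assoc a b⟩
  add_mem' := by
    rintro _ _ ⟨a, ha, rfl⟩ ⟨b, hb, rfl⟩
    exact ⟨a + b, Submodule.add_mem _ ha hb, map_add _ _ _⟩
  algebraMap_mem' r := by
    refine ⟨r • δ, Submodule.smul_mem _ _ h.unit, ?_⟩
    rw [map_smul, h.left, Algebra.algebraMap_eq_smul_one]

/-- The representation. -/
def rep : h.alg →+* (Module.End K H)ᵐᵒᵖ where
  toFun φ := op (ρ (φ.1 δ))
  map_one' := by
    change op (ρ δ) = 1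
    rw [h.rho_unit]
    rfl
  map_zero' := by
    change op (ρ 0) = 0
    rw [map_zero]
    rfl
  map_add' φ ψ := by
    change op (ρ (φ.1 δ + ψ.1 δ)) = _
    rw [map_add]
    rfl
  map_mul' := by
    rintro ⟨_, a, ha, rfl⟩ ⟨_, b, hb, rfl⟩
    change op (ρ ((c a * c b) δ)) = op (ρ (c a δ)) * op (ρ (c b δ))
    rw [← h.assoc, h.right, h.right, h.right, h.rho_mul]
    rfl

theorem lift (hnil : ∀ a ∈ G, ρ a = 0 → IsNilpotent (c a)) {m : ℕ} {p : ℕ → Module.End K H}
    (hp : ∀ i, p i * p i = p i) (hpo : ∀ i j, i ≠ j → p i * p j = 0)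
    (hps : ∑ i ∈ Finset.range m, p i = 1) (hpr : ∀ i, ∃ a ∈ G, ρ a = p i) :
    ∃ π : ℕ → A, (∀ i, π i ∈ G) ∧ (∀ i, m ≤ i → π i = 0) ∧ (∀ i, c (π i) (π i) = π i) ∧
      (∀ i j, i ≠ j → c (π i) (π j) = 0) ∧ ∑ i ∈ Finset.range m, π i = δ ∧
      ∀ i < m, ρ (π i) = p i := by
  classical
  have hrange : ∀ i : Fin m, op (p i) ∈ h.rep.range := by
    intro i
    obtain ⟨a, ha, h1⟩ := hpr i
    refine ⟨⟨c a, a, ha, rfl⟩, ?_⟩
    change op (ρ (c a δ)) = _
    rw [h.right, h1]
  have hker : ∀ φ ∈ RingHom.ker h.rep, IsNilpotent φ := by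
    rintro ⟨_, a, ha, rfl⟩ hφ
    have h1 : op (ρ (c a δ)) = 0 := hφ
    rw [h.right] at h1
    obtain ⟨N, hN⟩ := hnil a ha (op_injective h1)
    exact ⟨N, Subtype.ext hN⟩
  have he : CompleteOrthogonalIdempotents (fun i : Fin m => op (p i)) := by
    refine ⟨⟨fun i => ?_, fun i j hij => ?_⟩, ?_⟩
    · change op (p i) * op (p i) = _
      rw [← op_mul, hp]
    · change op (p i) * op (p j) = _
      rw [← op_mul, hpo _ _ (fun h => hij (Fin.ext h.symm)), op_zero]
    · have h1 := congrArg (opAddEquiv : Module.End K H ≃+ _) hps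
      rw [Finset.sum_range, map_sum] at h1
      exact h1
  obtain ⟨e', he', hee'⟩ := CompleteOrthogonalIdempotents.lift_of_isNilpotent_ker h.rep
    hker he hrange
  have hval : ∀ i, (e' i).1 = c ((e' i).1 δ) := by
    intro i
    obtain ⟨a, ha, h1⟩ := (e' i).2
    rw [← h1, h.right]
  have hgr : ∀ i, (e' i).1 δ ∈ G := by
    intro i
    obtain ⟨a, ha, h1⟩ := (e' i).2
    rw [← h1, h.right]
    exact ha
  have hmul : ∀ i j, c ((e' i).1 δ) ((e' j).1 δ) = (e' i * e' j).1 δ := by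
    intro i j
    rw [← hval]
    rfl
  refine ⟨fun i => if hi : i < m then (e' ⟨i, hi⟩).1 δ else 0, ?_, ?_, ?_, ?_, ?_, ?_⟩
  · intro i
    dsimp only
    split_ifs
    · exact hgr _
    · exact Submodule.zero_mem _
  · intro i hi
    dsimp only
    rw [dif_neg (by omega)]
  · intro i
    dsimp only
    split_ifs with hi
    · rw [hmul, (he'.idem _).eq]
    · rw [map_zero]
  · intro i j hij
    dsimp only
    split_ifs with hi hj
    · rw [hmul, he'.ortho (fun h => hij (Fin.mk.inj h))]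
      rfl
    · rw [map_zero]
    · rw [map_zero, LinearMap.zero_apply]
    · rw [map_zero]
  · rw [Finset.sum_range]
    have h1 : ∀ i : Fin m, (if hi : (i : ℕ) < m then
        (e' ⟨i, hi⟩).1 δ else 0) = (e' i).1 δ := fun i => by
      rw [dif_pos i.2]
    rw [Finset.sum_congr rfl fun i _ => h1 i]
    have h3 : (∑ i, e' i).1 = ∑ i, (e' i).1 := map_sum h.alg.val _ _
    rw [← LinearMap.sum_apply, ← h3, he'.complete]
    rfl
  · intro i hi
    dsimp only
    rw [dif_pos hi]
    exact op_injective (congrFun hee' ⟨i, hi⟩)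

end IsCalc

end Pool.Agent.V7H78.TC
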