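import Pool.Agent.V7H78.TC.Lin
import Pool.Agent.V7H78.TC.Lift
import Pool.Agent.N132.IX.Main

/-!
# Chow-Kunneth decompositions for theories of bounded index
-/

set_option linter.unusedSectionVars false

open CategoryTheory AlgebraicGeometry
open scoped ENNReal

universe u v w

namespace Pool.Agent.V7H78.TC

open Module Filter Topology MulOpposite
open Pool.Agent.H914 Pool.Agent.H914.VarClass Pool.Agent.H914.VarClass.Obj
  Pool.Agent.H914.WeilCohomology Pool.Agent.W492.BB Pool.Agent.W550.Corr Pool.Agent.Y133.Half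
  Pool.Agent.N132.IX

variable {k : Type u} [Field k] {𝒱 : VarClass k} {ops : CycleOps 𝒱}
  {W : WeilCohomology.{u, v} ops} {X Y Z : 𝒱.Obj} (C : CycleTheory.{u, v, w} W)

lemma comp_mem {d e : ℤ} {Γ : C.A (X.prod Y)} {Δ : C.A (Y.prod Z)}
    (hΓ : Γ ∈ C.gr (X.prod Y) (X.dim + d)) (hΔ : Δ ∈ C.gr (Y.prod Z) (Y.dim + e)) :
    C.comp Γ Δ ∈ C.gr (X.prod Z) (X.dim + (d + e)) := by
  have h := C.toTheoryData.push_mem (t13 X Y Z) (C.toTheoryData.mul_mem
    (C.toTheoryData.pull_mem (t23 X Y Z) hΔ) (C.toTheoryData.pull_mem (fst (X.prod Y) Z) hΓ))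
  have e1 : (Y.dim : ℤ) + e + ((X.dim : ℤ) + d) +
      1 * (((X.prod Z).dim : ℤ) - (((X.prod Y).prod Z).dim : ℤ)) = X.dim + (d + e) := by
    rw [dim_prod, dim_prod, dim_prod]; push_cast; ring
  rwa [e1] at h

lemma dg_mem (X : 𝒱.Obj) : dg C.toTheoryData X ∈ C.gr (X.prod X) X.dim := by
  have h := C.toTheoryData.push_mem (Obj.lift (𝟙 X) (𝟙 X)) (C.toTheoryData.one_mem X)
  have e1 : (0 : ℤ) + 1 * (((X.prod X).dim : ℤ) - (X.dim : ℤ)) = X.dim := by
    rw [dim_prod]; push_cast; ring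
  rwa [e1] at h

lemma mulCorr_mem {h : C.A X} (hh : h ∈ C.gr X 1) :
    C.mulCorr h ∈ C.gr (X.prod X) (X.dim + 1) := by
  have h := C.toTheoryData.push_mem (Obj.lift (𝟙 X) (𝟙 X)) hh
  have e1 : (1 : ℤ) + 1 * (((X.prod X).dim : ℤ) - (X.dim : ℤ)) = X.dim + 1 := by
    rw [dim_prod]; push_cast; ring
  rwa [e1] at h

lemma rho_mulCorr (h : C.A X) :
    C.rho X X (C.mulCorr h) = LinearMap.mulLeft W.K (C.cl X h) := by
  apply LinearMap.ext
  intro a
  have e1 : (Obj.lift (𝟙 X) (𝟙 X) : X ⟶ X.prod X) ≫ fst X X = 𝟙 X := lift_fst _ _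
  have e2 : (Obj.lift (𝟙 X) (𝟙 X) : X ⟶ X.prod X) ≫ snd X X = 𝟙 X := lift_snd _ _
  rw [CycleTheory.rho_apply, corr_apply, TheoryData.mulCorr, C.cl_push, ← W.push_mul,
    ← W.push_comp, ← W.map_comp, e1, e2, W.map_id, W.push_id]
  rfl

/-- The operators given by homogeneous correspondences. -/
def Rp (X : 𝒱.Obj) (d : ℤ) (y : Module.End W.K (W.H X)) : Prop :=
  ∃ Γ ∈ C.gr (X.prod X) (X.dim + d), C.rho X X Γ = y

lemma rp_smul (c : W.K) {d : ℤ} {y : Module.End W.K (W.H X)} (hy : Rp C X d y) :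
    Rp C X d (c • y) := by
  obtain ⟨Γ, hΓ, rfl⟩ := hy
  exact ⟨c • Γ, Submodule.smul_mem _ _ hΓ, map_smul _ _ _⟩

lemma rp_opAlg : OpAlg (W.gr X) (Rp C X) where
  one := ⟨dg C.toTheoryData X, by rw [add_zero]; exact dg_mem C X, C.rho_dg X⟩
  zero d := ⟨0, Submodule.zero_mem _, map_zero _⟩
  add := by
    rintro d y z ⟨Γ, hΓ, rfl⟩ ⟨Δ, hΔ, rfl⟩
    exact ⟨Γ + Δ, Submodule.add_mem _ hΓ hΔ, map_add _ _ _⟩
  smul q {d y} hy := rp_smul C (q : W.K) hy
  mul := by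
    rintro d e y z ⟨Γ, hΓ, rfl⟩ ⟨Δ, hΔ, rfl⟩
    refine ⟨C.comp Δ Γ, ?_, C.rho_comp Δ Γ⟩
    rw [add_comm d e]
    exact comp_mem C hΔ hΓ
  hom := by
    rintro d y ⟨Γ, hΓ, rfl⟩
    by_cases h0 : 0 ≤ (X.dim : ℤ) + d
    · obtain ⟨p, hp⟩ := Int.eq_ofNat_of_zero_le h0
      have h1 : C.cl _ Γ ∈ W.gr (X.prod X) (2 * p) := C.cl_mem (by rw [← hp]; exact hΓ)
      have h2 := corr_isHom W h1
      rwa [show (2 * ((p : ℤ) - X.dim)) = 2 * d by omega] at h2
    · have h1 : C.gr (X.prod X) (X.dim + d) = ⊥ :=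
        C.isTheory.isGradedRing.gr_neg _ _ (not_le.1 h0)
      rw [h1, Submodule.mem_bot] at hΓ
      rw [hΓ, map_zero]
      intro i a _
      rw [LinearMap.zero_apply]
      exact Submodule.zero_mem _

/-- Classes are sums of homogeneous classes. -/
lemma homog_induction {p : C.A X → Prop} (h0 : p 0) (hadd : ∀ a b, p a → p b → p (a + b))
    (hom : ∀ i : ℤ, ∀ a ∈ C.gr X i, p a) (a : C.A X) : p a := by
  have h1 := DirectSum.IsInternal.submodule_iSup_eq_top (C.isTheory.isGradedRing.isInternal X)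
  have ha : a ∈ ⨆ i, C.gr X i := by rw [h1]; exact Submodule.mem_top
  exact Submodule.iSup_induction (C.gr X) (motive := p) ha hom h0 hadd

lemma tr_cl_zero {i : ℤ} {a : C.A X} (ha : a ∈ C.gr X i) (hi : i ≠ X.dim) :
    W.tr X (C.cl X a) = 0 := by
  by_cases h0 : 0 ≤ i
  · obtain ⟨j, rfl⟩ := Int.eq_ofNat_of_zero_le h0
    exact W.tr_eq_zero (C.cl_mem ha) (by omega)
  · rw [C.isTheory.isGradedRing.gr_neg _ _ (not_le.1 h0), Submodule.mem_bot] at ha
    rw [ha, map_zero, map_zero]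

/-- Numerical triviality in terms of super traces. -/
lemma numTriv_of_traces {Γ : C.A (X.prod X)} (hΓ : Γ ∈ C.gr (X.prod X) (X.dim + 1))
    (h : ∀ y, Rp C X (-1) y → LinearMap.trace W.K (W.H X)
      (par (W.isInternal X) * (C.rho X X Γ * y)) = 0) : CycleTheory.NumTriv Γ := by
  intro Δ
  refine homog_induction C (p := fun Δ => W.tr (X.prod X) (C.cl _ (Γ * Δ)) = 0) ?_ ?_ ?_ Δ
  · rw [mul_zero, map_zero, map_zero]
  · intro a b ha hb
    rw [mul_add, map_add, map_add, ha, hb, add_zero]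
  · intro j Δ hΔ
    by_cases hj : j = X.dim + (-1)
    · subst hj
      have h1 : C.cl _ Γ ∈ W.gr (X.prod X) (2 * (X.dim + 1)) := C.cl_mem (by exact_mod_cast hΓ)
      rw [map_mul, tr_mul_eq_trace h1, mul_assoc, ← C.cl_pull]
      exact h _ ⟨_, C.toTheoryData.pull_mem _ hΔ, rfl⟩
    · apply tr_cl_zero C (C.toTheoryData.mul_mem hΓ hΔ)
      rw [dim_prod]
      push_cast
      omega

/-- **The Kunneth projectors.** -/
theorem kunneth_of_num {h : C.A X} (hh : h ∈ C.gr X 1)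
    (hHL : HardLef (W.gr X) X.dim (LinearMap.mulLeft W.K (C.cl X h)))
    (hnum : ∀ Γ : C.A (X.prod X), CycleTheory.NumTriv Γ → C.cl _ Γ = 0) (i : ℕ) :
    Rp C X 0 (proj (W.isInternal X) i) := by
  refine proj_mem_of_nondeg (n := X.dim) (rp_opAlg C) (fun c {d y} hy => rp_smul C c hy)
    (W.isInternal X) W_hbd (L := LinearMap.mulLeft W.K (C.cl X h))
    ⟨C.mulCorr h, mulCorr_mem C hh, rho_mulCorr C h⟩ hHL ?_ i
  rintro _ ⟨Γ, hΓ, rfl⟩ hu
  exact C.rho_eq_zero.2 (hnum Γ (numTriv_of_traces C hΓ hu))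

/-- The composition operators. -/
noncomputable def lc (Γ : C.A (X.prod X)) : Module.End W.K (C.A (X.prod X)) :=
  compL C.toTheoryData (X := X) (Y := X) (Z := X) Γ

lemma lc_dg (Γ : C.A (X.prod X)) : lc C Γ (dg C.toTheoryData X) = Γ := comp_dg _ _

lemma lc_mul (Γ Δ : C.A (X.prod X)) : lc C Γ * lc C Δ = lc C (C.comp Γ Δ) := by
  apply LinearMap.ext
  intro x
  exact (comp_assoc C.toTheoryData Γ Δ x).symm

lemma lc_one : lc C (dg C.toTheoryData X) = 1 := by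
  apply LinearMap.ext
  intro x
  exact dg_comp C.toTheoryData x

/-- The calculus of self-correspondences. -/
lemma isCalc (X : 𝒱.Obj) : IsCalc (K := W.K) (A := C.A (X.prod X)) (H := W.H X)
    (compL C.toTheoryData (X := X) (Y := X) (Z := X)) (dg C.toTheoryData X)
    (C.gr (X.prod X) X.dim) (C.rho X X) where
  right a := comp_dg _ a
  left := lc_one C
  assoc a b := (lc_mul C a b).symm
  mem a ha b hb := by
    have := comp_mem C (d := 0) (e := 0) (Γ := a) (Δ := b) (by rwa [add_zero]) (by rwa [add_zero])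
    rwa [add_zero, add_zero] at this
  unit := dg_mem C X
  rho_mul a b := C.rho_comp a b
  rho_unit := C.rho_dg X

lemma lc_pow {Γ : C.A (X.prod X)} (hΓ : CycleTheory.NumTriv Γ) : ∀ j : ℕ,
    ∃ P : C.A (X.prod X), C.NComp X (j + 1) 0 0 P ∧ lc C Γ ^ (j + 1) = lc C P
  | 0 => ⟨Γ, CycleTheory.NComp.one 0 0 Γ hΓ, by rw [zero_add, pow_one]⟩
  | j + 1 => by
    obtain ⟨P, h1, h2⟩ := lc_pow hΓ j
    refine ⟨C.comp P Γ, CycleTheory.NComp.succ (j + 1) 0 0 0 P Γ h1 hΓ, ?_⟩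
    rw [pow_succ, h2, lc_mul]

/-- A Chow-Kunneth decomposition: mutually orthogonal idempotent self-correspondences `π i` of
degree zero with sum the diagonal, such that `π i` acts as the identity on `H^i(X)` and as zero on
`H^j(X)` for `j ≠ i`. -/
structure IsCKx (π : ℕ → C.A (X.prod X)) : Prop where
  deg : ∀ i, π i ∈ C.gr (X.prod X) X.dim
  out : ∀ i, 2 * X.dim < i → π i = 0
  idem : ∀ i, C.comp (π i) (π i) = π i
  orth : ∀ i j, i ≠ j → C.comp (π i) (π j) = 0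
  sum : ∑ i ∈ Finset.range (2 * X.dim + 1), π i = dg C.toTheoryData X
  rho : ∀ i, C.rho X X (π i) = proj (W.isInternal X) i

/-- **Existence of Chow-Kunneth decompositions.** -/
theorem exists_ck {h : C.A X} (hh : h ∈ C.gr X 1)
    (hHL : HardLef (W.gr X) X.dim (LinearMap.mulLeft W.K (C.cl X h)))
    (hnum : ∀ Γ : C.A (X.prod X), CycleTheory.NumTriv Γ → C.cl _ Γ = 0)
    {N : ℕ} (hN : N ≠ 0) (hcomp : ∀ Γ, C.NComp X N 0 0 Γ → Γ = 0) :
    ∃ π : ℕ → C.A (X.prod X), IsCKx C π := by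
  have hnil : ∀ Γ ∈ C.gr (X.prod X) X.dim, C.rho X X Γ = 0 →
      IsNilpotent (compL C.toTheoryData (X := X) (Y := X) (Z := X) Γ) := by
    intro Γ _ h1
    have h2 : C.cl _ Γ = 0 := C.rho_eq_zero.1 h1
    have h3 : CycleTheory.NumTriv Γ := fun y => by rw [map_mul, h2, zero_mul, map_zero]
    obtain ⟨P, h4, h5⟩ := lc_pow C h3 (N - 1)
    rw [show N - 1 + 1 = N by omega] at h4 h5
    refine ⟨N, ?_⟩
    change lc C Γ ^ N = 0
    rw [h5, hcomp P h4]
    exact map_zero _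
  have h0 : ∀ i, ∃ Γ ∈ C.gr (X.prod X) X.dim, C.rho X X Γ = proj (W.isInternal X) i := by
    intro i
    obtain ⟨Γ, hΓ, h1⟩ := kunneth_of_num C hh hHL hnum i
    rw [add_zero] at hΓ
    exact ⟨Γ, hΓ, h1⟩
  obtain ⟨π, h1, h2, h3, h4, h5, h6⟩ := (isCalc C X).lift hnil (m := 2 * X.dim + 1)
    (p := proj (W.isInternal X)) (proj_mul_proj _) (fun i j hij => proj_mul_ne _ hij)
    (sum_proj (W.isInternal X) W_hbd) h0
  refine ⟨π, h1, fun i hi => h2 i (by omega), h3, h4, h5, fun i => ?_⟩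
  by_cases hi : i < 2 * X.dim + 1
  · exact h6 i hi
  · rw [h2 i (by omega), map_zero]
    symm
    apply gr_ext (W.isInternal X)
    intro j a ha
    by_cases hj : j = i
    · subst hj
      rw [W_hbd j (by omega)] at ha
      rw [(Submodule.mem_bot _).1 ha, map_zero, map_zero]
    · rw [proj_ne _ ha hj, LinearMap.zero_apply]

end Pool.Agent.V7H78.TC
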