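import Pool.Agent.V7H78.TC.Kim1
import Pool.Agent.V7H78.TC.Kun

/-!
# Kimura finiteness from the absence of phantoms, with coefficients in any field
-/

open CategoryTheory AlgebraicGeometry

universe u v w

namespace Pool.Agent.V7H78.TC

open Module
open Pool.Agent.H914 Pool.Agent.H914.VarClass Pool.Agent.H914.VarClass.Obj
  Pool.Agent.H914.WeilCohomology Pool.Agent.W492.BB Pool.Agent.W550.Corr Pool.Agent.Y133.Half
  Pool.Agent.N132.IX Pool.Agent.Y110
open Pool.Agent.TH829.Kim (wt wt_mul)

set_option linter.unusedSectionVars false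

variable {k : Type u} [Field k] {𝒱 : VarClass k} {ops : CycleOps 𝒱}
  {W : WeilCohomology.{u, v} ops} {X Y Z : 𝒱.Obj} {C : CycleTheory.{u, v, w} W}

instance commC (C : CycleTheory.{u, v, w} W) : CommT C.toTheoryData := ⟨fun a b => C.mul_comm a b⟩

/-- The parity of a degree, `true` for even degrees. -/
def ParN (s : Bool) (i : ℕ) : Prop := if s then Even i else Odd i

lemma gc_evenN {i j : ℕ} {a b : W.H Z} (ha : a ∈ W.gr Z i)
    (hb : b ∈ W.gr Z j) (h : Even (i * j)) : a * b = b * a := by
  rw [W.comm ha hb, h.neg_one_pow, one_smul]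

lemma gc_oddN {i j : ℕ} {a b : W.H Z} (ha : a ∈ W.gr Z i)
    (hb : b ∈ W.gr Z j) (h : Odd (i * j)) : a * b = -(b * a) := by
  rw [W.comm ha hb, h.neg_one_pow, neg_one_smul]

lemma corr_tmul {q j : ℕ} {u v a : W.H X} (hv : v ∈ W.gr X q) (ha : a ∈ W.gr X j) :
    W.corr (W.map (fst X X) u * W.map (snd X X) v) a =
      ((-1 : W.K) ^ (q * j) * W.tr X (u * a)) • v := by
  rw [corr_apply, mul_assoc, W.comm (W.map_mem _ hv) (W.map_mem _ ha), mul_smul_comm, ← mul_assoc,
    ← map_mul, map_smul, W.push_snd, smul_smul]

lemma exists_tmul (c : W.H (X.prod X)) : ∃ (m : ℕ) (p q : Fin m → ℕ) (u v : Fin m → W.H X),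
    (∀ i, u i ∈ W.gr X (p i)) ∧ (∀ i, v i ∈ W.gr X (q i)) ∧
      c = ∑ i, W.map (fst X X) (u i) * W.map (snd X X) (v i) := by
  set S : Set (W.H (X.prod X)) := {t | ∃ (p q : ℕ) (u v : W.H X), u ∈ W.gr X p ∧ v ∈ W.gr X q ∧
    t = W.map (fst X X) u * W.map (snd X X) v} with hS
  have h1 : c ∈ Submodule.span W.K S := by
    refine W.kunneth_induction (p := fun c => c ∈ Submodule.span W.K S)
      (fun a b ha hb => Submodule.add_mem _ ha hb) ?_ c
    intro i j a ha b hb
    exact Submodule.subset_span ⟨i, j, a, b, ha, hb, rfl⟩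
  obtain ⟨m, f, g, hfg⟩ := Submodule.mem_span_set'.1 h1
  choose p q u v hu hv huv using fun i => (g i).2
  refine ⟨m, p, q, fun i => f i • u i, v, fun i => Submodule.smul_mem _ _ (hu i), hv, ?_⟩
  rw [← hfg]
  apply Finset.sum_congr rfl
  intro i _
  rw [huv i, map_smul, smul_mul_assoc]

lemma corr_sum {ι : Type*} (s : Finset ι) (f : ι → W.H (X.prod X)) (a : W.H X) :
    W.corr (∑ i ∈ s, f i) a = ∑ i ∈ s, W.corr (f i) a := by
  classical
  induction s using Finset.induction_on with
  | empty => rw [Finset.sum_empty, Finset.sum_empty, corr_zero, LinearMap.zero_apply]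
  | insert i s hi ih => rw [Finset.sum_insert hi, Finset.sum_insert hi, corr_add,
      LinearMap.add_apply, ih]

open Classical in
/-- The Kunneth components of a projector onto the even or the odd cohomology. -/
lemma cl_par {e : C.A (X.prod X)} (s : Bool)
    (he : ∀ j, ∀ a ∈ W.gr X j, W.corr (C.cl _ e) a = if ParN s j then a else 0) :
    ∃ (m : ℕ) (p q : Fin m → ℕ) (u v : Fin m → W.H X), (∀ i, u i ∈ W.gr X (p i)) ∧
      (∀ i, v i ∈ W.gr X (q i)) ∧ (∀ i, ParN s (p i)) ∧ (∀ i, ParN s (q i)) ∧
      C.cl _ e = ∑ i, W.map (fst X X) (u i) * W.map (snd X X) (v i) := by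
  obtain ⟨m, p, q, u, v, hu, hv, hδ⟩ := exists_tmul (C.cl _ (dg C.toTheoryData X))
  let c : ℕ := if s then 0 else 1
  have hc : ParN s c := by
    unfold ParN c
    cases s
    · simp
    · simp
  let good : Fin m → Prop := fun i => p i + q i = 2 * X.dim ∧ ParN s (q i)
  have hgood : ∀ i, good i → ParN s (p i) := by
    rintro i ⟨h1, h2⟩
    unfold ParN at h2 ⊢
    cases s
    · simp only [Bool.false_eq_true, if_false] at h2 ⊢
      have h3 : Even (p i + q i) := by rw [h1]; exact even_two_mul _
      rw [Nat.even_add'] at h3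
      exact h3.2 h2
    · simp only [if_true] at h2 ⊢
      have h3 : Even (p i + q i) := by rw [h1]; exact even_two_mul _
      rw [Nat.even_add] at h3
      exact h3.2 h2
  refine ⟨m, fun i => if good i then p i else c, fun i => if good i then q i else c,
    fun i => if good i then u i else 0, fun i => if good i then v i else 0,
    fun i => ?_, fun i => ?_, fun i => ?_, fun i => ?_, ?_⟩
  · dsimp only
    split_ifs
    · exact hu i
    · exact Submodule.zero_mem _
  · dsimp only
    split_ifs
    · exact hv i
    · exact Submodule.zero_mem _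
  · dsimp only
    split_ifs with h
    · exact hgood i h
    · exact hc
  · dsimp only
    split_ifs with h
    · exact h.2
    · exact hc
  · have key : ∀ j, ∀ a ∈ W.gr X j, W.corr (C.cl _ e) a = W.corr (∑ i,
        W.map (fst X X) (if good i then u i else 0) *
          W.map (snd X X) (if good i then v i else 0)) a := by
      intro j a ha
      let d : Fin m → W.K := fun i => (-1 : W.K) ^ (q i * j) * W.tr X (u i * a)
      have hd0 : ∀ i, p i + j ≠ 2 * X.dim → d i = 0 := by
        intro i hi
        simp only [d]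
        rw [W.tr_eq_zero (W.mul_mem (hu i) ha) hi, mul_zero]
      have e1 : a = ∑ i, d i • v i := by
        have h1 : C.rho X X (dg C.toTheoryData X) a = a := by
          rw [C.rho_dg]; rfl
        rw [CycleTheory.rho_apply, hδ, corr_sum] at h1
        exact h1.symm.trans (Finset.sum_congr rfl fun i _ => corr_tmul (hv i) ha)
      have e2 : ∀ i, W.corr (W.map (fst X X) (if good i then u i else 0) *
          W.map (snd X X) (if good i then v i else 0)) a = if good i then d i • v i else 0 := by
        intro i
        split_ifs with h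
        · exact corr_tmul (hv i) ha
        · rw [map_zero, map_zero, zero_mul, corr_zero, LinearMap.zero_apply]
      rw [he j a ha, corr_sum, Finset.sum_congr rfl (fun i _ => e2 i)]
      split_ifs with hj
      · have e3 := congrArg (proj (W.isInternal X) j) e1
        rw [proj_same _ ha, map_sum] at e3
        refine e3.trans ?_
        apply Finset.sum_congr rfl
        intro i _
        rw [map_smul]
        by_cases hd : d i = 0
        · rw [hd, zero_smul, zero_smul, ite_self]
        · have h1 : p i + j = 2 * X.dim := by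
            by_contra h
            exact hd (hd0 i h)
          by_cases hq : q i = j
          · have h2 : good i := ⟨by rw [hq]; exact h1, by rw [hq]; exact hj⟩
            have h3 : v i ∈ W.gr X j := by rw [← hq]; exact hv i
            rw [if_pos h2, proj_same _ h3]
          · have h2 : ¬ good i := fun h => hq (by have := h.1; omega)
            rw [if_neg h2, proj_ne _ (hv i) hq, smul_zero]
      · symm
        apply Finset.sum_eq_zero
        intro i _
        split_ifs with h
        · by_cases hd : d i = 0
          · rw [hd, zero_smul]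
          · exfalso
            have h1 : p i + j = 2 * X.dim := by
              by_contra h
              exact hd (hd0 i h)
            have h2 : q i = j := by have := h.1; omega
            exact hj (h2 ▸ h.2)
        · rfl
    have hop : W.corr (C.cl _ e - ∑ i, W.map (fst X X) (if good i then u i else 0) *
          W.map (snd X X) (if good i then v i else 0)) = 0 := by
      apply LinearMap.ext
      intro a
      have hlin : ∀ x y : W.H (X.prod X), W.corr (x - y) a = W.corr x a - W.corr y a := by
        intro x y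
        rw [corr_apply, corr_apply, corr_apply, sub_mul, map_sub]
      rw [hlin, LinearMap.zero_apply]
      refine gr_induction (W.isInternal X) (p := fun a => W.corr (C.cl _ e) a -
        W.corr (∑ i, W.map (fst X X) (if good i then u i else 0) *
          W.map (snd X X) (if good i then v i else 0)) a = 0) ?_ ?_ a
      · intro j a ha
        rw [key j a ha, sub_self]
      · intro a b ha hb
        rw [map_add, map_add, add_sub_add_comm, ha, hb, add_zero]
    exact sub_eq_zero.1 (corr_inj hop)

/-- The class of the (anti)symmetrization of a correspondence whose Kunneth components have the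
right parity vanishes if there are many factors. -/
lemma cl_gdT_eq_zero (s : Bool) {e : C.A (X.prod X)} {m : ℕ}
    {p q : Fin m → ℕ} {u v : Fin m → W.H X} (hu : ∀ i, u i ∈ W.gr X (p i))
    (hv : ∀ i, v i ∈ W.gr X (q i)) (hp : ∀ i, ParN s (p i)) (hq : ∀ i, ParN s (q i))
    (he : C.cl _ e = ∑ i, W.map (fst X X) (u i) * W.map (snd X X) (v i)) {n : ℕ} (hn : m < n)
    (x y : Fin n → (Z ⟶ X)) : C.cl Z (gdT s e x y) = 0 := by
  set S : Set (W.H Z) := {a | ∃ i : ℕ, Even i ∧ a ∈ W.gr Z i} with hS
  have hcomm : ∀ a ∈ S, ∀ b ∈ S, a * b = b * a := by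
    rintro a ⟨i, hi, ha⟩ b ⟨j, hj, hb⟩
    exact gc_evenN ha hb (hi.mul_right j)
  let a : Fin n → Fin m → W.H Z := fun i k => W.map (x i) (u k)
  let b : Fin n → Fin m → W.H Z := fun i k => W.map (y i) (v k)
  have ha : ∀ i k, a i k ∈ W.gr Z (p k) := fun i k => W.map_mem _ (hu k)
  have hb : ∀ i k, b i k ∈ W.gr Z (q k) := fun i k => W.map_mem _ (hv k)
  have hab : ∀ i j k l, a i k * b j l ∈ S := by
    intro i j k l
    refine ⟨p k + q l, ?_, W.mul_mem (ha i k) (hb j l)⟩
    have h1 := hp k
    have h2 := hq l
    unfold ParN at h1 h2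
    split_ifs at h1 h2
    · exact h1.add h2
    · exact h1.add_odd h2
  have hev : ∀ i j, C.cl Z (evT e (x i) (y j)) = ∑ k, a i k * b j k := by
    intro i j
    rw [evT, C.cl_pull, he, map_sum]
    apply Finset.sum_congr rfl
    intro k _
    rw [map_mul, ← W.map_comp, ← W.map_comp]
    simp only [a, b]
    rw [Obj.lift_fst, Obj.lift_snd]
  have hcl : C.cl Z (gdT s e x y) = ∑ σ : Equiv.Perm (Fin n),
      ∑ f : Fin n → Fin m, wt s σ • (List.ofFn fun i => a i (f i) * b (σ i) (f i)).prod := by
    rw [gdT, map_sum]
    apply Finset.sum_congr rfl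
    intro σ _
    rw [map_zsmul, ← Finset.smul_sum]
    congr 1
    rw [← List.prod_ofFn]
    have h0 : C.cl Z (List.ofFn fun i => evT e (x i) (y (σ i))).prod =
        ((List.ofFn fun i => evT e (x i) (y (σ i))).map (C.cl Z)).prod := map_list_prod (C.cl Z) _
    rw [h0, List.map_ofFn]
    have h1 : ((C.cl Z : C.A Z → W.H Z) ∘ fun i => evT e (x i) (y (σ i))) =
        fun i => ∑ k, a i k * b (σ i) k := by
      funext i
      exact hev i (σ i)
    rw [h1]
    have h2 := (MultilinearMap.mkPiAlgebraFin W.K n (W.H Z)).map_sum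
      (fun i k => a i k * b (σ i) k)
    simp only [MultilinearMap.mkPiAlgebraFin_apply] at h2
    exact h2
  rw [hcl, Finset.sum_comm]
  apply Finset.sum_eq_zero
  intro f _
  obtain ⟨i, j, hij, hf⟩ := Fintype.exists_ne_map_eq_of_card_lt f (by simpa using hn)
  refine Finset.sum_involution (fun σ _ => σ * Equiv.swap i j) ?_ ?_ ?_ ?_
  · intro σ _
    have h1 : (List.ofFn fun l => a l (f l) * b ((σ * Equiv.swap i j) l) (f l)).prod =
        (if s then 1 else (-1 : ℤ)) • (List.ofFn fun l => a l (f l) * b (σ l) (f l)).prod := by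
      apply list_swap (K := W.K) S hcomm _ _ (fun l => hab _ _ _ _) (fun l => hab _ _ _ _) hij
      · intro l h2 h3
        rw [Equiv.Perm.mul_apply, Equiv.swap_apply_of_ne_of_ne h2 h3]
      · rw [Equiv.Perm.mul_apply, Equiv.Perm.mul_apply, Equiv.swap_apply_left,
          Equiv.swap_apply_right, hf]
        set A := a i (f j) with hA
        set A' := a j (f j) with hA'
        set B := b (σ i) (f j) with hB
        set B' := b (σ j) (f j) with hB'
        have h2 := hp (f j)
        have h3 := hq (f j)
        unfold ParN at h2 h3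
        by_cases hs : s = true
        · rw [if_pos hs] at h2 h3 ⊢
          have e1 : B' * A' = A' * B' := gc_evenN (hb _ _) (ha _ _) (h3.mul_right _)
          have e2 : B' * B = B * B' := gc_evenN (hb _ _) (hb _ _) (h3.mul_right _)
          have e3 : A' * B = B * A' := gc_evenN (ha _ _) (hb _ _) (h2.mul_right _)
          rw [one_smul]
          calc A * B' * (A' * B) = A * (B' * A') * B := by simp only [mul_assoc]
            _ = A * A' * (B' * B) := by rw [e1]; simp only [mul_assoc]
            _ = A * (A' * B) * B' := by rw [e2]; simp only [mul_assoc]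
            _ = A * B * (A' * B') := by rw [e3]; simp only [mul_assoc]
        · rw [if_neg hs] at h2 h3 ⊢
          have e1 : B' * A' = -(A' * B') := gc_oddN (hb _ _) (ha _ _) (h3.mul h2)
          have e2 : B' * B = -(B * B') := gc_oddN (hb _ _) (hb _ _) (h3.mul h3)
          have e3 : A' * B = -(B * A') := gc_oddN (ha _ _) (hb _ _) (h2.mul h3)
          calc A * B' * (A' * B) = A * (B' * A') * B := by simp only [mul_assoc]
            _ = -(A * A' * (B' * B)) := by rw [e1]; simp only [mul_neg, neg_mul, mul_assoc]
            _ = A * (A' * B) * B' := by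
              rw [e2]; simp only [mul_neg, neg_neg, mul_assoc]
            _ = -(A * B * (A' * B')) := by rw [e3]; simp only [mul_neg, neg_mul, mul_assoc]
            _ = (-1 : ℤ) • (A * B * (A' * B')) := by rw [neg_one_zsmul]
    rw [h1, wt_mul]
    have h2 : wt s (Equiv.swap i j) = if s then -1 else 1 := by
      unfold Pool.Agent.TH829.Kim.wt
      split_ifs
      · rw [Equiv.Perm.sign_swap hij]; rfl
      · rfl
    rw [h2]
    by_cases hs : s = true
    · rw [if_pos hs, if_pos hs, one_smul, mul_neg, mul_one, neg_smul, add_neg_cancel]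
    · rw [if_neg hs, if_neg hs, mul_one, neg_one_zsmul, smul_neg, add_neg_cancel]
  · intro σ _ _ h1
    have h2 : Equiv.swap i j = 1 := mul_left_cancel (a := σ) (by rw [h1, mul_one])
    exact hij (Equiv.swap_eq_one_iff.1 h2)
  · intro σ _
    exact Finset.mem_univ _
  · intro σ _
    simp [mul_assoc]

variable (C X) in
/-- The powers of `X` have no phantoms. -/
def NoPh : Prop := ∀ (n : ℕ) (p : C.A ((pw X n).prod (pw X n))), C.comp p p = p → C.cl _ p = 0 →
  p = 0

/-- If the powers of `X` have no phantoms, then the (anti)symmetric powers of the even (odd) part of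
the motive of `X` vanish. -/
theorem van_of_noPh (h : NoPh X C) (s : Bool) {e : C.A (X.prod X)} (hee : C.comp e e = e)
    (he : ∃ (m : ℕ) (p q : Fin m → ℕ) (u v : Fin m → W.H X), (∀ i, u i ∈ W.gr X (p i)) ∧
      (∀ i, v i ∈ W.gr X (q i)) ∧ (∀ i, ParN s (p i)) ∧ (∀ i, ParN s (q i)) ∧
      C.cl _ e = ∑ i, W.map (fst X X) (u i) * W.map (snd X X) (v i)) :
    ∃ n : ℕ, ∀ (Z : 𝒱.Obj) (x y : Fin (n + 1) → (Z ⟶ X)),
      gdT (T := C.toTheoryData) s e x y = 0 := by
  obtain ⟨m, p, q, u, v, hu, hv, hp, hq, huv⟩ := he
  refine ⟨m, ?_⟩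
  obtain ⟨pr, hP, hE⟩ := exists_powT (T := C.toTheoryData) X m
  let x : Fin (m + 1) → ((pw X m).prod (pw X m) ⟶ X) := fun i => fst (pw X m) (pw X m) ≫ pr i
  let y : Fin (m + 1) → ((pw X m).prod (pw X m) ⟶ X) := fun i => snd (pw X m) (pw X m) ≫ pr i
  let D : C.A ((pw X m).prod (pw X m)) := gdT (T := C.toTheoryData) s e x y
  have hDD := gdT_mul (T := C.toTheoryData) hP s (hE e hee) (D := D) rfl
  set N : ℕ := Fintype.card (Equiv.Perm (Fin (m + 1))) with hN
  have hN0 : (N : W.K) ≠ 0 := by
    have : 0 < N := Fintype.card_pos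
    exact_mod_cast this.ne'
  have hDD' : C.comp D D = (N : W.K) • D := by
    rw [Nat.cast_smul_eq_nsmul]
    exact hDD
  have hcl : C.cl _ D = 0 := cl_gdT_eq_zero s hu hv hp hq huv (Nat.lt_succ_self m) x y
  have hp0 : (N : W.K)⁻¹ • D = 0 := by
    apply h m
    · rw [← compL_apply C.toTheoryData, map_smul, map_smul, LinearMap.smul_apply,
        compL_apply C.toTheoryData, hDD', smul_smul (N : W.K)⁻¹ (N : W.K) D, inv_mul_cancel₀ hN0,
        one_smul]
    · rw [map_smul, hcl, smul_zero]
  have hD0 : D = 0 := by
    rw [← one_smul W.K D, ← mul_inv_cancel₀ hN0, mul_smul, hp0, smul_zero]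
  intro Z x' y'
  obtain ⟨g1, h1⟩ := hP.exists_lift Z x'
  obtain ⟨g2, h2⟩ := hP.exists_lift Z y'
  have h3 := pull_gdT (T := C.toTheoryData) s (Obj.lift g1 g2) e x y
  have h4 : gdT (T := C.toTheoryData) s e x y = 0 := hD0
  rw [h4, map_zero] at h3
  have h5 : (fun i => Obj.lift g1 g2 ≫ x i) = x' := by
    funext i
    simp only [x]
    rw [lift_fst_assoc, h1]
  have h6 : (fun i => Obj.lift g1 g2 ≫ y i) = y' := by
    funext i
    simp only [y]
    rw [lift_snd_assoc, h2]
  rw [h5, h6] at h3
  exact h3.symm

/-- The even and the odd part of a Chow-Kunneth decomposition. -/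
noncomputable def parS (X : 𝒱.Obj) (s : Bool) (π : ℕ → C.A (X.prod X)) : C.A (X.prod X) :=
  ∑ i ∈ Finset.range (X.dim + 1), π (2 * i + if s then 0 else 1)

lemma parS_idem {s : Bool} {π : ℕ → C.A (X.prod X)} (hπ : IsCKx C π) :
    C.comp (parS X s π) (parS X s π) = parS X s π := by
  unfold parS
  rw [comp_sum]
  apply Finset.sum_congr rfl
  intro i hi
  rw [sum_comp, Finset.sum_eq_single i]
  · exact hπ.idem _
  · intro j _ hj
    exact hπ.orth _ _ (by omega)
  · intro h
    exact absurd hi h

open Classical in
lemma parS_act {s : Bool} {π : ℕ → C.A (X.prod X)} (hπ : IsCKx C π) (j : ℕ) (a : W.H X)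
    (ha : a ∈ W.gr X j) : W.corr (C.cl _ (parS X s π)) a = if ParN s j then a else 0 := by
  have h1 : ∀ i, W.corr (C.cl _ (π i)) a = if j = i then a else 0 := by
    intro i
    have h2 : W.corr (C.cl _ (π i)) = proj (W.isInternal X) i := hπ.rho i
    rw [h2]
    split_ifs with h
    · subst h
      exact proj_same _ ha
    · exact proj_ne _ ha h
  unfold parS
  rw [map_sum, corr_sum, Finset.sum_congr rfl (fun i _ => h1 _)]
  by_cases hj : 2 * X.dim < j
  · rw [W.gr_eq_bot X j hj, Submodule.mem_bot] at ha
    subst ha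
    simp
  cases s
  · have e : ∀ i, (2 * i + if false = true then 0 else 1) = 2 * i + 1 := fun i => by simp
    simp only [e]
    by_cases h : Odd j
    · have hP : ParN false j := by
        unfold ParN
        simpa using h
      rw [if_pos hP]
      obtain ⟨r, hr⟩ := h
      rw [Finset.sum_eq_single r]
      · rw [if_pos hr]
      · intro i _ hi
        rw [if_neg (by omega)]
      · intro hr'
        exact absurd (Finset.mem_range.2 (by omega)) hr'
    · have hP : ¬ ParN false j := by
        unfold ParN
        simpa using h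
      rw [if_neg hP]
      apply Finset.sum_eq_zero
      intro i _
      rw [if_neg]
      rintro rfl
      exact h ⟨i, rfl⟩
  · simp only [↓reduceIte, add_zero]
    by_cases h : Even j
    · have hP : ParN true j := by
        unfold ParN
        simpa using h
      rw [if_pos hP]
      obtain ⟨r, hr⟩ := h
      rw [Finset.sum_eq_single r]
      · rw [if_pos (by omega)]
      · intro i _ hi
        rw [if_neg (by omega)]
      · intro hr'
        exact absurd (Finset.mem_range.2 (by omega)) hr'
    · have hP : ¬ ParN true j := by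
        unfold ParN
        simpa using h
      rw [if_neg hP]
      apply Finset.sum_eq_zero
      intro i _
      rw [if_neg]
      rintro rfl
      exact h ⟨i, by ring⟩

end Pool.Agent.V7H78.TC
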