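import Pool.Agent.V7H78.TC.Kim2
import Pool.Agent.V7H78.TC.Ker
import Pool.Agent.V7H78.TC.DefsM

/-!
# Kimura finiteness under bounded growth
-/

set_option linter.unusedSectionVars false

open CategoryTheory AlgebraicGeometry Module

universe u v w

namespace Pool.Agent.V7H78.TC

open Pool.Agent.H914 Pool.Agent.H914.VarClass Pool.Agent.H914.VarClass.Obj Pool.Agent.W492.BB
  Pool.Agent.Y133.Half Pool.Agent.H914.WeilCohomology Pool.Agent.N132 Pool.Agent.W550.Corr
  Pool.Agent.V7H5.AJ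
open Pool.Agent.N132.IXS (ChowTheory CycleTheory conv Commutes)
open Pool.Agent.TH829.Kim (wt wt_mul)

section phantoms

open Pool.Agent.N132.IX

variable {k : Type u} [Field k] {𝒱 : VarClass k} {ops : CycleOps 𝒱}
  {W : WeilCohomology.{u, v} ops} {X : 𝒱.Obj} {C : IX.CycleTheory.{u, v, w} W}
  {G : ∀ n, Submodule W.K (C.A (pw X n))}

lemma numTriv_of_cl {Y : 𝒱.Obj} {x : C.A Y} (h : C.cl _ x = 0) : IX.CycleTheory.NumTriv x := by
  intro y
  rw [map_mul, h, zero_mul, map_zero]

/-- Compositions of numerically trivial correspondences: no phantoms. -/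
lemma noPh_of_ncomp {N : ℕ} (hN : N ≠ 0) (h : ∀ m n Γ, C.NComp X N m n Γ → Γ = 0) : NoPh X C := by
  intro n p hp hcl
  have h1 : ∀ j : ℕ, C.NComp X (j + 1) n n p := by
    intro j
    induction j with
    | zero => exact IX.CycleTheory.NComp.one n n p (numTriv_of_cl hcl)
    | succ j ih =>
      have h2 := IX.CycleTheory.NComp.succ (j + 1) n n n p p ih (numTriv_of_cl hcl)
      rwa [hp] at h2
  obtain ⟨M, rfl⟩ := Nat.exists_eq_succ_of_ne_zero hN
  exact h n n p (h1 M)

/-- The filtration of a family of ideals: no phantoms. -/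
lemma noPh_of_filG {d : ℕ} (hG : ∀ n x, C.cl (pw X n) x = 0 → x ∈ G n)
    (h : ∀ n, filG C X G d n = ⊥) : NoPh X C := by
  intro n p hp hcl
  have e1 : C.pull (pwAdd X n n).hom (C.pull (pwAdd X n n).inv p) = p := by
    rw [← TheoryData.pull_comp, Iso.hom_inv_id, TheoryData.pull_id]
  have h1 : ∀ j : ℕ, C.pull (pwAdd X n n).inv p ∈ filG C X G j (n + n + 1) := by
    intro j
    induction j with
    | zero =>
      rw [filG_zero]
      apply hG
      have h2 : C.cl _ (C.pull (pwAdd X n n).inv p) = 0 := by rw [C.cl_pull, hcl, map_zero]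
      exact h2
    | succ j ih =>
      set T := TH133.tens C.toTheoryData (dg C.toTheoryData (pw X n)) p with hT
      have hTn : IX.CycleTheory.NumTriv T := numTriv_tens _ (numTriv_of_cl hcl)
      have e2 : C.pull (pwAdd X n n).inv p =
          C.act (C.comp (C.comp (C.cograph (pwAdd X n n).hom) T) (C.cograph (pwAdd X n n).inv))
            (C.pull (pwAdd X n n).inv p) := by
        rw [TheoryData.act_comp, TheoryData.act_comp, TheoryData.act_cograph,
          TheoryData.act_cograph, e1, ← comp_eq_act, hp]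
      rw [e2]
      exact act_filG (numTriv_comp (numTriv_comp' _ hTn) _) ih
  have h2 := h1 d
  rw [h, Submodule.mem_bot] at h2
  exact (pullEquiv C (pwAdd X n n).symm).injective (h2.trans (map_zero _).symm)

end phantoms

variable {k : Type u} [Field k] {𝒱 : VarClass k} {ops : CycleOps 𝒱}
  {W : WeilCohomology.{u, v} ops} {C : CycleTheory.{u, v, w} W}
  {S : ∀ X : 𝒱.Obj, ℤ → Set (C.A X)} (hS : Polarized C.toChowTheory S) {X : 𝒱.Obj}

/-- The inclusion of the tautological classes. -/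
def vvH (Y : 𝒱.Obj) : (TT hS).A Y →+* C.A Y where
  toFun := vv hS
  map_one' := rfl
  map_mul' _ _ := rfl
  map_zero' := rfl
  map_add' _ _ := rfl

lemma vv_gdT {Y : 𝒱.Obj} (s : Bool) (e : (TT hS).A (X.prod X)) {n : ℕ} (x y : Fin n → (Y ⟶ X)) :
    vv hS (gdT (T := (TT hS).toTheoryData) s e x y) = ∑ σ : Equiv.Perm (Fin n), wt s σ •
      (List.ofFn fun i => C.toTheoryData.up (Obj.lift (x i) (y (σ i))) (vv hS e)).prod := by
  change vvH hS Y _ = _
  rw [gdT, map_sum]
  apply Finset.sum_congr rfl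
  intro σ _
  rw [map_zsmul, ← List.prod_ofFn, map_list_prod, List.map_ofFn]
  rfl

lemma ext_of_gdT {e : (TT hS).A (X.prod X)} (h : ∃ n : ℕ, ∀ (Z : 𝒱.Obj) (x y : Fin (n + 1) →
    (Z ⟶ X)), gdT (T := (TT hS).toTheoryData) true e x y = 0) :
    ExtVanishes C.toTheoryData X (vv hS e) := by
  obtain ⟨n, h⟩ := h
  refine ⟨n, fun Y x y => ?_⟩
  have h1 := congrArg (vv hS) (h Y x y)
  rw [vv_gdT] at h1
  exact h1

lemma sym_of_gdT {e : (TT hS).A (X.prod X)} (h : ∃ n : ℕ, ∀ (Z : 𝒱.Obj) (x y : Fin (n + 1) →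
    (Z ⟶ X)), gdT (T := (TT hS).toTheoryData) false e x y = 0) :
    SymVanishes C.toTheoryData X (vv hS e) := by
  obtain ⟨n, h⟩ := h
  refine ⟨n, fun Y x y => ?_⟩
  have h1 := congrArg (vv hS) (h Y x y)
  rw [vv_gdT] at h1
  have h2 : ∀ σ : Equiv.Perm (Fin (n + 1)), wt false σ • (List.ofFn fun i =>
      C.toTheoryData.up (Obj.lift (x i) (y (σ i))) (vv hS e)).prod = (List.ofFn fun i =>
      C.toTheoryData.up (Obj.lift (x i) (y (σ i))) (vv hS e)).prod := fun σ => one_smul _ _
  rw [Finset.sum_congr rfl (fun σ _ => h2 σ)] at h1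
  exact h1

end Pool.Agent.V7H78.TC
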