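import Pool.Agent.V7H78.TC.Kim3

/-!
# Even and odd parts from a self-correspondence which acts by the signs
-/

set_option linter.unusedSectionVars false

open CategoryTheory AlgebraicGeometry Module

universe u v w

namespace Pool.Agent.V7H78.TC

open Pool.Agent.H914 Pool.Agent.H914.VarClass Pool.Agent.H914.VarClass.Obj Pool.Agent.W492.BB
  Pool.Agent.Y133.Half Pool.Agent.H914.WeilCohomology Pool.Agent.N132 Pool.Agent.W550.Corr
  Pool.Agent.V7H5.AJ
open Pool.Agent.N132.IXS (conv)

section nil

open Pool.Agent.N132.IX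

variable {k : Type u} [Field k] {𝒱 : VarClass k} {ops : CycleOps 𝒱}
  {W : WeilCohomology.{u, v} ops} {X : 𝒱.Obj} {C : IX.CycleTheory.{u, v, w} W}
  {G : ∀ n, Submodule W.K (C.A (pw X n))}

/-- The powers of a homologically trivial self-correspondence lie in the steps of the
filtration. -/
lemma lc_pow_filG (hG : ∀ n x, C.cl (pw X n) x = 0 → x ∈ G n) {a : C.A (X.prod X)}
    (ha : C.cl _ a = 0) : ∀ j : ℕ, ∃ P : C.A ((pw X 0).prod (pw X 0)),
      C.pull (pwAdd X 0 0).inv P ∈ filG C X G j (0 + 0 + 1) ∧ lc C a ^ (j + 1) = lc C (X := X) P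
  | 0 => ⟨a, by
      rw [filG_zero]
      apply hG
      have h2 : C.cl _ (C.pull (pwAdd X 0 0).inv a) = 0 := by
        rw [C.cl_pull]
        exact (congrArg _ ha).trans (map_zero _)
      exact h2, by rw [zero_add, pow_one]⟩
  | j + 1 => by
    obtain ⟨P, h1, h2⟩ := lc_pow_filG hG ha j
    refine ⟨C.comp (Y := pw X 0) P a, ?_, ?_⟩
    · set T := TH133.tens C.toTheoryData (dg C.toTheoryData (pw X 0)) a with hT
      have hTn : IX.CycleTheory.NumTriv T := numTriv_tens _ (numTriv_of_cl ha)
      have e1 : C.pull (pwAdd X 0 0).hom (C.pull (pwAdd X 0 0).inv P) = P := by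
        rw [← TheoryData.pull_comp, Iso.hom_inv_id, TheoryData.pull_id]
      have e2 : C.pull (pwAdd X 0 0).inv (C.comp (Y := pw X 0) P a) =
          C.act (C.comp (C.comp (C.cograph (pwAdd X 0 0).hom) T) (C.cograph (pwAdd X 0 0).inv))
            (C.pull (pwAdd X 0 0).inv P) := by
        rw [TheoryData.act_comp, TheoryData.act_comp, TheoryData.act_cograph,
          TheoryData.act_cograph, e1, hT]
        congr 1
        exact comp_eq_act C (P := pw X 0) (Q := pw X 0) (Z := X) P a
      rw [e2]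
      exact act_filG (numTriv_comp (numTriv_comp' _ hTn) _) h1
    · rw [pow_succ, h2]
      exact lc_mul C (X := X) P a

/-- Homologically trivial self-correspondences are nilpotent. -/
lemma isNilpotent_of_filG {d : ℕ} (hG : ∀ n x, C.cl (pw X n) x = 0 → x ∈ G n)
    (h : ∀ n, filG C X G d n = ⊥) {a : C.A (X.prod X)} (ha : C.cl _ a = 0) :
    IsNilpotent (lc C a) := by
  obtain ⟨P, h1, h2⟩ := lc_pow_filG hG ha d
  rw [h, Submodule.mem_bot] at h1
  have h3 : P = 0 := (pullEquiv C (pwAdd X 0 0).symm).injective (h1.trans (map_zero _).symm)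
  refine ⟨d + 1, ?_⟩
  rw [h2, h3]
  exact map_zero (compL C.toTheoryData (X := X) (Y := X) (Z := X))

end nil

section signs

variable {k : Type u} [Field k] {𝒱 : VarClass k} {ops : CycleOps 𝒱}
  {W : WeilCohomology.{u, v} ops} {X : 𝒱.Obj}

/-- Operators which agree on homogeneous classes are equal. -/
lemma ext_gr {f g : Module.End W.K (W.H X)} (h : ∀ i, ∀ a ∈ W.gr X i, f a = g a) : f = g := by
  apply LinearMap.ext
  intro a
  have h1 := DirectSum.IsInternal.submodule_iSup_eq_top (W.isInternal X)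
  have ha : a ∈ ⨆ i, W.gr X i := by rw [h1]; exact Submodule.mem_top
  refine Submodule.iSup_induction (W.gr X) (motive := fun a => f a = g a) ha h ?_ ?_
  · rw [map_zero, map_zero]
  · intro a b ha hb
    rw [map_add, map_add, ha, hb]

end signs

section even

open Pool.Agent.N132.IX

variable {k : Type u} [Field k] {𝒱 : VarClass k} {ops : CycleOps 𝒱}
  {W : WeilCohomology.{u, v} ops} {X : 𝒱.Obj} {C : IX.CycleTheory.{u, v, w} W}
  {G : ∀ n, Submodule W.K (C.A (pw X n))}

/-- The even part of the motive. -/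
theorem exists_even {d : ℕ} (hG : ∀ n x, C.cl (pw X n) x = 0 → x ∈ G n)
    (h : ∀ n, filG C X G d n = ⊥) {z : C.A (X.prod X)} (hz : z ∈ C.gr (X.prod X) X.dim)
    (hz' : ∀ i, ∀ a ∈ W.gr X i, C.rho X X z a = (-1 : W.K) ^ i • a) :
    ∃ e : C.A (X.prod X), e ∈ C.gr (X.prod X) X.dim ∧ C.comp e e = e ∧
      C.comp (dg C.toTheoryData X - e) (dg C.toTheoryData X - e) = dg C.toTheoryData X - e ∧
      ∀ i, ∀ a ∈ W.gr X i, C.rho X X e a = if Even i then a else 0 := by
  classical
  set b : C.A (X.prod X) := (2 : W.K)⁻¹ • (dg C.toTheoryData X + z) with hb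
  have hbm : b ∈ C.gr (X.prod X) X.dim :=
    Submodule.smul_mem _ _ (Submodule.add_mem _ (dg_mem C X) hz)
  have hba : ∀ i, ∀ a ∈ W.gr X i, C.rho X X b a = if Even i then a else 0 := by
    intro i a ha
    rw [hb, map_smul, map_add, C.rho_dg, LinearMap.smul_apply, LinearMap.add_apply, hz' i a ha]
    change (2 : W.K)⁻¹ • (a + (-1 : W.K) ^ i • a) = _
    split_ifs with hi
    · rw [hi.neg_one_pow, one_smul, ← two_smul W.K a, smul_smul, inv_mul_cancel₀ two_ne_zero,
        one_smul]
    · rw [(Nat.not_even_iff_odd.1 hi).neg_one_pow, neg_one_smul, add_neg_cancel, smul_zero]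
  set E : Module.End W.K (W.H X) := C.rho X X b with hE
  have hEE : E * E = E := by
    apply ext_gr
    intro i a ha
    rw [Module.End.mul_apply, hba i a ha]
    split_ifs with hi
    · rw [hba i a ha, if_pos hi]
    · rw [map_zero]
  let p : ℕ → Module.End W.K (W.H X) := fun i => if i = 0 then E else if i = 1 then 1 - E else 0
  have hp : ∀ i, p i * p i = p i := by
    intro i
    simp only [p]
    split_ifs
    · exact hEE
    · rw [mul_sub, mul_one, sub_mul, one_mul, hEE, sub_self, sub_zero]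
    · rw [mul_zero]
  have hpo : ∀ i j, i ≠ j → p i * p j = 0 := by
    intro i j hij
    simp only [p]
    split_ifs
    · omega
    · rw [mul_sub, mul_one, hEE, sub_self]
    · rw [mul_zero]
    · rw [sub_mul, one_mul, hEE, sub_self]
    · omega
    · rw [mul_zero]
    · rw [zero_mul]
    · rw [zero_mul]
    · rw [zero_mul]
  have hps : ∑ i ∈ Finset.range 2, p i = 1 := by
    rw [Finset.sum_range_succ, Finset.sum_range_one]
    simp only [p, if_true, one_ne_zero, if_false]
    rw [add_sub_cancel]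
  have hpr : ∀ i, ∃ a ∈ C.gr (X.prod X) X.dim, C.rho X X a = p i := by
    intro i
    simp only [p]
    split_ifs
    · exact ⟨b, hbm, rfl⟩
    · refine ⟨dg C.toTheoryData X - b, Submodule.sub_mem _ (dg_mem C X) hbm, ?_⟩
      rw [map_sub, C.rho_dg]
      rfl
    · exact ⟨0, Submodule.zero_mem _, map_zero _⟩
  obtain ⟨π, h1, h2, h3, h4, h5, h6⟩ := (isCalc C X).lift (p := p) (m := 2)
    (fun a _ ha => isNilpotent_of_filG hG h (C.rho_eq_zero.1 ha)) hp hpo hps hpr
  have h7 : dg C.toTheoryData X - π 0 = π 1 := by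
    rw [← h5, Finset.sum_range_succ, Finset.sum_range_one, add_sub_cancel_left]
  refine ⟨π 0, h1 0, h3 0, ?_, ?_⟩
  · rw [h7]
    exact h3 1
  · intro i a ha
    rw [h6 0 (by norm_num)]
    exact hba i a ha

end even

end Pool.Agent.V7H78.TC
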