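import Pool.Agent.H447R3.DegA
import Pool.Agent.H447R3.NumB

/-!
# Projectors in algebras of operators without numerically trivial elements
-/

open Polynomial Finset

namespace Pool.Agent.V7H78.TC

open Pool.Agent.H914 Pool.Agent.H447

variable {K : Type*} [Field K] [CharZero K] {V : Type*} [AddCommGroup V] [Module K V]
variable {gr : ℕ → Submodule K V} {n : ℕ} {L : Module.End K V} {R : ℤ → Module.End K V → Prop}

/-- If a graded algebra of operators, closed under multiplication by scalars, contains the
Lefschetz operator and has no nonzero numerically trivial operator of degree one, then it contains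
the `sl(2)`-partner of `L` and the projectors onto the graded pieces. -/
theorem proj_mem_of_nondeg [Module.Finite K V] (hR : OpAlg gr R)
    (hK : ∀ (c : K) {d : ℤ} {y : Module.End K V}, R d y → R d (c • y))
    (h : DirectSum.IsInternal gr) (hbd : ∀ i, 2 * n + 1 ≤ i → gr i = ⊥) (hL : R 1 L)
    (hHL : HardLef gr n L)
    (hN : ∀ u, R 1 u → (∀ y, R (-1) y → LinearMap.trace K V (par h * (u * y)) = 0) → u = 0)
    (i : ℕ) : R 0 (proj h i) := by
  have hLh : IsHom gr 2 L := by simpa using hR.hom hL
  obtain ⟨f, t, hf, -⟩ := exists_sl2 h hLh hbd hHL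
  let Rm : ℤ → Submodule K (Module.End K V) := fun d =>
    { carrier := {y | R d y}
      zero_mem' := hR.zero d
      add_mem' := fun ha hb => hR.add ha hb
      smul_mem' := fun c _ hy => hK c hy }
  let b : Module.End K V →ₗ[K] Module.End K V →ₗ[K] K :=
    (LinearMap.mul K (Module.End K V)).compr₂ (LinearMap.trace K V ∘ₗ LinearMap.mulLeft K (par h))
  obtain ⟨z, hz, hzf⟩ := exists_rep_of_orth b (Rm (-1)) (Rm 1)
    (LinearMap.trace K V ∘ₗ LinearMap.mulLeft K (par h) ∘ₗ LinearMap.mulLeft K f) (by
      intro γ hγ h0
      have hγ0 : γ = 0 := by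
        apply hN γ hγ
        intro y hy
        have h1 : LinearMap.trace K V (par h * (y * γ)) = 0 := h0 y hy
        rw [← h1]
        exact str_comm h (hR.hom hγ)
      rw [hγ0, map_zero])
  have hz' : R (-1) z := hz
  have hfz : z = f := by
    refine lower_mem hR h hbd hL hHL t hf hz' (fun u hu => ?_) hN
    exact hzf u hu
  have hfR : R (-1) f := hfz ▸ hz'
  by_cases hi : i < 2 * n + 1
  · have h2 : R 0 (wt h n) := by
      rw [← t.ef]
      exact hR.sub (hR.cast (hR.mul hL hfR) (by norm_num)) (hR.cast (hR.mul hfR hL) (by norm_num))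
    have h3 := hR.ev h2 (herm n 1 i)
    rwa [ev_wt_herm h hbd le_rfl (Finset.mem_range.2 hi)] at h3
  · have : proj h i = 0 := by
      apply gr_ext h
      intro j a ha
      by_cases hj : j = i
      · subst hj
        rw [hbd j (by omega)] at ha
        rw [(Submodule.mem_bot _).1 ha, map_zero, map_zero]
      · rw [proj_ne h ha hj, LinearMap.zero_apply]
    rw [this]
    exact hR.zero 0

end Pool.Agent.V7H78.TC
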