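import Pool.Agent.V7H78.TC.Pol
import Pool.Agent.V7H78.TC.Kun
import Pool.Agent.V7H5.AJ.Final

/-!
# The growth of tautological rings
-/

set_option linter.unusedSectionVars false

open CategoryTheory AlgebraicGeometry Module Filter Topology
open scoped ENNReal

universe u v w

namespace Pool.Agent.V7H78.TC

open Pool.Agent.H914 Pool.Agent.H914.VarClass Pool.Agent.H914.VarClass.Obj Pool.Agent.W492.BB
  Pool.Agent.Y133.Half Pool.Agent.H914.WeilCohomology Pool.Agent.N132 Pool.Agent.W550.Corr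
open Pool.Agent.N132.IXS (ChowTheory CycleTheory conv Commutes)

variable {k : Type u} [Field k] {𝒱 : VarClass k} {ops : CycleOps 𝒱}
  {W : WeilCohomology.{u, v} ops}

variable {C : CycleTheory.{u, v, w} W} {S : ∀ X : 𝒱.Obj, ℤ → Set (C.A X)}
  (hS : Polarized C.toChowTheory S) {X : 𝒱.Obj}

/-- The theory of tautological classes in the other form. -/
noncomputable abbrev TT : IX.CycleTheory.{u, v, w} W := conv (tcycle C S hS)

/-- The class underlying a tautological class. -/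
def vv {Y : 𝒱.Obj} (x : (TT hS).A Y) : C.A Y := (tsub C.toChowTheory S Y).val x

/-- A tautological class. -/
def mk {Y : 𝒱.Obj} (x : C.A Y) (hx : x ∈ tautRing C.toTheoryData S Y) : (TT hS).A Y :=
  (⟨x, hx⟩ : tsub C.toChowTheory S Y)

lemma vv_ext {Y : 𝒱.Obj} {x y : (TT hS).A Y} (h : vv hS x = vv hS y) : x = y := Subtype.ext h

lemma vv_mem {Y : 𝒱.Obj} (x : (TT hS).A Y) : vv hS x ∈ tautRing C.toTheoryData S Y :=
  Subtype.prop (p := fun z => z ∈ tsub C.toChowTheory S Y) x

lemma xpow_vv {Y : 𝒱.Obj} (x : (TT hS).A Y) : ∀ j : ℕ,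
    vv hS (IX.CycleTheory.xpow (C := TT hS) x j) =
      ChowTheory.xpow (C := C.toChowTheory) (vv hS x) j
  | 0 => rfl
  | j + 1 => by
    have h1 : ChowTheory.xpow (C := C.toChowTheory) (vv hS x) (j + 1) =
        C.pull (fst (pw Y j) Y) (ChowTheory.xpow (C := C.toChowTheory) (vv hS x) j) *
          C.pull (snd (pw Y j) Y) (vv hS x) := rfl
    rw [h1, ← xpow_vv x j]
    rfl

lemma taut_mem {Y : 𝒱.Obj} {i : ℤ} {x : C.A Y} (h : Taut C.toTheoryData S Y i x) :
    x ∈ tautRing C.toTheoryData S Y := Submodule.subset_span ⟨i, h⟩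

lemma vv_comp {Y Z V : 𝒱.Obj} (a : (TT hS).A (Y.prod Z)) (b : (TT hS).A (Z.prod V)) :
    vv hS ((TT hS).comp a b) = C.comp (vv hS a) (vv hS b) := rfl

lemma vv_zero {Y : 𝒱.Obj} : vv hS (0 : (TT hS).A Y) = 0 := rfl

lemma vv_sum {Y : 𝒱.Obj} {ι : Type*} (s : Finset ι) (f : ι → (TT hS).A Y) :
    vv hS (∑ i ∈ s, f i) = ∑ i ∈ s, vv hS (f i) :=
  map_sum (tsub C.toChowTheory S Y).val f s

/-- The tautological Chow-Kunneth decomposition. -/
lemma tautCK_of {π : ℕ → (TT hS).A (X.prod X)} (hπ : IsCKx (TT hS) π) :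
    IsTautCK C S X (fun i => vv hS (π i)) := by
  refine ⟨fun i => hπ.deg i, ⟨fun i hi => ?_, fun i => ?_,
    fun i j hij => ?_, ?_⟩, fun i j a ha => ?_⟩
  · rw [hπ.out i hi, vv_zero]
  · exact congrArg (vv hS) (hπ.idem i)
  · exact congrArg (vv hS) (hπ.orth i j hij)
  · have h1 := congrArg (vv hS) hπ.sum
    rw [vv_sum] at h1
    exact h1
  · have h1 : W.corr (valOf (C.cl _) (vv hS (π i))) = proj (W.isInternal X) i := hπ.rho i
    rw [h1]
    by_cases hj : j = i
    · subst hj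
      rw [if_pos rfl, proj_same _ ha]
    · rw [if_neg hj, proj_ne _ ha hj]

include hS in
/-- **The dichotomy.** -/
theorem dichotomy {h : C.A X} (hh : Taut C.toTheoryData S X 1 h) (hL : IsLefschetz C X h) :
    Tendsto (fun n => tautRatio C.toChowTheory S (pw X n)) atTop (𝓝 ⊤) ∨
    ∃ N : ℕ, 1 ≤ N ∧ Tendsto (fun n => tautRatio C.toChowTheory S (pw X n)) atTop (𝓝 N) ∧
      (∃ π, IsCKx (TT hS) (X := X) π) ∧ (∀ m n Γ, (TT hS).NComp X N m n Γ → Γ = 0) ∧
      ∀ n, SmallNum C S (pw X n) (N - 1) := by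
  obtain ⟨-, N, h0, h1, -, h3⟩ := IX.index_main (TT hS) X
  have hr : ∀ n, (TT hS).ratio (pw X n) = tautRatio C.toChowTheory S (pw X n) := fun n =>
    (IXS.ratio_conv (tcycle C S hS) (pw X n)).symm.trans (ratio_eq' (pw X n))
  simp only [hr] at h1
  induction N using ENat.recTopCoe with
  | top => left; simpa using h1
  | coe d =>
    right
    obtain ⟨h4, h5, h6, h7, -⟩ := h3 d rfl
    have hd : d ≠ 0 := by
      rintro rfl
      exact h0 rfl
    refine ⟨d, Nat.one_le_iff_ne_zero.2 hd, by simpa using h1, ?_, h7, ?_⟩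
    · exact exists_ck (TT hS) (X := X) (h := mk hS h (taut_mem hh)) hh hL
        (fun Γ hΓ => h5 1 Γ hΓ) hd (fun Γ hΓ => h7 0 0 Γ hΓ)
    · intro n
      have hfin : (tautRing C.toTheoryData S (pw X n)).FG := by
        have h8 : Module.Finite W.K ((tdata C.toChowTheory S).A (pw X n)) := h4 n
        exact Module.Finite.iff_fg.1 (Module.Finite.equiv (tequiv C.toChowTheory S (pw X n)))
      refine ⟨hfin, fun x hx hx0 => ?_⟩
      have h8 : IX.CycleTheory.NumTriv (mk hS x hx) := by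
        apply (IXS.numTriv_conv (tcycle C S hS)).1
        intro y
        exact hx0 (vv hS y) (vv_mem hS y)
      refine ⟨h5 n _ h8, ?_⟩
      obtain ⟨q, θ, hθ⟩ := IX.xpow_fil h8 (d - 1)
      rw [show d - 1 + 1 = d by omega, h6 q, Submodule.mem_bot] at hθ
      have h9 : IX.CycleTheory.xpow (C := TT hS) (mk hS x hx) (d - 1) = 0 :=
        (IX.pullEquiv (TT hS) θ.symm).injective
          (hθ.trans (map_zero (IX.pullEquiv (TT hS) θ.symm)).symm)
      have h10 := xpow_vv hS (mk hS x hx) (d - 1)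
      rw [h9] at h10
      exact h10.symm

end Pool.Agent.V7H78.TC
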