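import Pool.Agent.V7H78.TC.Sub
import Pool.Agent.N132.IXS.Conv
import Pool.Agent.H914R2.StdDefs

/-!
# Tautological classes of nonzero degree
-/

set_option linter.unusedSectionVars false

open CategoryTheory AlgebraicGeometry Module Filter Topology
open scoped ENNReal

universe u v w

namespace Pool.Agent.V7H78.TC

open Pool.Agent.H914 Pool.Agent.H914.VarClass Pool.Agent.H914.VarClass.Obj Pool.Agent.W492.BB
  Pool.Agent.Y133.Half Pool.Agent.N132.IXS Pool.Agent.H914.WeilCohomology

variable {k : Type u} [Field k] {𝒱 : VarClass k} {ops : CycleOps 𝒱}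
  {W : WeilCohomology.{u, v} ops}

variable {C : CycleTheory.{u, v, w} W} {X Y Z : 𝒱.Obj}
  {S : ∀ X : 𝒱.Obj, ℤ → Set (C.A X)}

lemma deg_ext (a : C.A Y) (b : C.A Z) :
    C.deg (Y.prod Z) (C.pull (fst Y Z) a * C.pull (snd Y Z) b) = C.deg Y a * C.deg Z b := by
  rw [(C.isClassMap _).deg_eq, (C.isClassMap Y).deg_eq, (C.isClassMap Z).deg_eq, map_mul,
    (C.commutes _).pull, (C.commutes _).pull, W.tr_prod]


lemma one_ne_zero' (C : CycleTheory.{u, v, w} W) (X : 𝒱.Obj) : (1 : W.H X) ≠ 0 := by
  obtain ⟨z, hz⟩ := (C.isClassMap X).exists_point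
  intro h
  rw [(C.isClassMap X).deg_eq] at hz
  have h1 : C.cl X z = 0 := by
    rw [← one_mul (C.cl X z), h, zero_mul]
  rw [h1, map_zero] at hz
  exact zero_ne_one hz

lemma mulLeft_pow (a : W.H X) (m : ℕ) (b : W.H X) :
    ((LinearMap.mulLeft W.K a) ^ m) b = a ^ m * b := by
  induction m generalizing b with
  | zero => simp
  | succ m ih => rw [pow_succ, Module.End.mul_apply, ih, LinearMap.mulLeft_apply, pow_succ, mul_assoc]

lemma deg_pow_ne {h : C.A X} (hh : h ∈ C.gr X 1) (hL : IsLefschetz C X h) :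
    C.deg X (h ^ X.dim) ≠ 0 := by
  intro h0
  rw [(C.isClassMap X).deg_eq, map_pow] at h0
  have hc : C.cl X h ∈ W.gr X (2 * 1) := (C.isClassMap X).mem (by exact_mod_cast hh)
  have hcn : ∀ m : ℕ, (C.cl X h) ^ m ∈ W.gr X (2 * m) := by
    intro m
    induction m with
    | zero => rw [pow_zero]; exact W.one_mem X
    | succ m ih =>
      rw [pow_succ, show 2 * (m + 1) = 2 * m + 2 * 1 by ring]
      exact W.mul_mem ih hc
  have h1 : (C.cl X h) ^ X.dim = 0 := by
    apply W.nondeg
    have h2 : (W.tr X ∘ₗ LinearMap.mulLeft W.K ((C.cl X h) ^ X.dim)) = 0 := by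
      apply gr_ext (W.isInternal X)
      intro j b hb
      rw [LinearMap.comp_apply, LinearMap.mulLeft_apply, LinearMap.zero_apply]
      by_cases hj : j = 0
      · subst hj
        rw [W.gr_zero, Submodule.mem_span_singleton] at hb
        obtain ⟨c, rfl⟩ := hb
        rw [mul_smul_comm, mul_one, map_smul, h0, smul_zero]
      · exact W.tr_eq_zero (W.mul_mem (hcn _) hb) (by omega)
    intro b
    exact LinearMap.congr_fun h2 b
  have h2 := (hL 0 (Nat.zero_le _)).1 1 (W.one_mem X)
  rw [mulLeft_pow, Nat.sub_zero, mul_one] at h2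
  exact one_ne_zero' C X (h2 h1)

lemma taut_pow {h : C.A X} (hh : Taut C.toTheoryData S X 1 h) (m : ℕ) :
    Taut C.toTheoryData S X m (h ^ m) := by
  induction m with
  | zero => rw [pow_zero]; exact Taut.one X
  | succ m ih =>
    rw [pow_succ]
    push_cast
    exact Taut.mul _ _ _ _ _ ih hh

/-- If all varieties in `𝒱` are products of copies of `X` and some tautological divisor class on
`X` satisfies the hard Lefschetz theorem, then there are tautological classes of degree different
from zero on all of them. -/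
theorem polarized_of_power (hX : ∀ Y : 𝒱.Obj, IsPower X Y) {h : C.A X}
    (hh : Taut C.toTheoryData S X 1 h) (hL : IsLefschetz C X h) :
    Polarized C.toChowTheory S := by
  intro Y
  induction hX Y with
  | self =>
    exact ⟨h ^ X.dim, Submodule.subset_span ⟨_, taut_pow hh _⟩, deg_pow_ne hh.deg hL⟩
  | prod Y Z _ _ hY hZ =>
    obtain ⟨a, ha, ha0⟩ := hY
    obtain ⟨b, hb, hb0⟩ := hZ
    refine ⟨_, ring_mul (ring_pull (fst Y Z) ha) (ring_pull (snd Y Z) hb), ?_⟩
    rw [deg_ext]
    exact mul_ne_zero ha0 hb0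

end Pool.Agent.V7H78.TC
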