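import Pool.Agent.V7H78.TC.DefsD
import Pool.Agent.V7H78.TC.DefsE
import Pool.Agent.V7H78.TC.DefsK
import Pool.Agent.W492.BB.Real

/-!
# The theory of tautological classes
-/

set_option linter.unusedSectionVars false

open CategoryTheory AlgebraicGeometry Module Filter Topology
open scoped ENNReal

universe u v w

namespace Pool.Agent.V7H78.TC

open Pool.Agent.H914 Pool.Agent.H914.VarClass Pool.Agent.H914.VarClass.Obj Pool.Agent.W492.BB
  Pool.Agent.Y133.Half Pool.Agent.N132.IXS

variable {k : Type u} [Field k] {𝒱 : VarClass k} {K : Type v} [Field K]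
  {C : ChowTheory.{u, v, w} 𝒱 K} {S : ∀ X : 𝒱.Obj, ℤ → Set (C.A X)} {X Y Z : 𝒱.Obj}

lemma Taut.deg {i : ℤ} {x : C.A X} (h : Taut C.toTheoryData S X i x) : x ∈ C.gr X i := by
  induction h with
  | gen X i x _ hd => exact hd
  | zero X i => exact Submodule.zero_mem _
  | one X => exact C.isTheory.isGradedRing.one_mem X
  | add X i x y _ _ hx hy => exact Submodule.add_mem _ hx hy
  | smul X i c x _ hx => exact Submodule.smul_mem _ _ hx
  | mul X i j x y _ _ hx hy => exact C.isTheory.isGradedRing.mul_mem hx hy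
  | pull X Y f i y _ hy => exact C.isTheory.hasDegrees.pull_mem f hy
  | push X Y f i x _ hx =>
    have := C.isTheory.hasDegrees.push_mem f hx
    rwa [one_mul] at this

/-- The tautological classes of codimension `i`. -/
def tgr (C : ChowTheory.{u, v, w} 𝒱 K) (S : ∀ X : 𝒱.Obj, ℤ → Set (C.A X)) (X : 𝒱.Obj) (i : ℤ) :
    Submodule K (C.A X) where
  carrier := {x | Taut C.toTheoryData S X i x}
  zero_mem' := Taut.zero X i
  add_mem' := fun ha hb => Taut.add _ _ _ _ ha hb
  smul_mem' := fun c _ hx => Taut.smul _ _ c _ hx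

lemma mem_tgr {i : ℤ} {x : C.A X} : x ∈ tgr C S X i ↔ Taut C.toTheoryData S X i x := Iff.rfl

lemma tgr_le (i : ℤ) : tgr C S X i ≤ C.gr X i := fun _ hx => Taut.deg hx

lemma tautRing_eq (X : 𝒱.Obj) : tautRing C.toTheoryData S X = ⨆ i, tgr C S X i := by
  apply le_antisymm
  · rw [tautRing, Submodule.span_le]
    rintro x ⟨i, hx⟩
    exact Submodule.mem_iSup_of_mem i hx
  · exact iSup_le fun i x hx => Submodule.subset_span ⟨i, hx⟩

lemma tgr_le_ring (i : ℤ) : tgr C S X i ≤ tautRing C.toTheoryData S X :=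
  fun _ hx => Submodule.subset_span ⟨i, hx⟩

lemma ring_mul {x y : C.A X} (hx : x ∈ tautRing C.toTheoryData S X) (hy : y ∈ tautRing C.toTheoryData S X) :
    x * y ∈ tautRing C.toTheoryData S X := by
  refine Submodule.span_induction (p := fun x _ => x * y ∈ tautRing C.toTheoryData S X) ?_ ?_ ?_ ?_ hx
  · rintro x ⟨i, hx⟩
    refine Submodule.span_induction (p := fun y _ => x * y ∈ tautRing C.toTheoryData S X) ?_ ?_ ?_ ?_ hy
    · rintro y ⟨j, hy⟩
      exact Submodule.subset_span ⟨i + j, Taut.mul _ _ _ _ _ hx hy⟩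
    · rw [mul_zero]; exact Submodule.zero_mem _
    · intro a b _ _ ha hb
      rw [mul_add]; exact Submodule.add_mem _ ha hb
    · intro c a _ ha
      rw [mul_smul_comm]; exact Submodule.smul_mem _ _ ha
  · rw [zero_mul]; exact Submodule.zero_mem _
  · intro a b _ _ ha hb
    rw [add_mul]; exact Submodule.add_mem _ ha hb
  · intro c a _ ha
    rw [smul_mul_assoc]; exact Submodule.smul_mem _ _ ha

lemma ring_one : (1 : C.A X) ∈ tautRing C.toTheoryData S X := Submodule.subset_span ⟨0, Taut.one X⟩

lemma ring_pull (f : X ⟶ Y) {y : C.A Y} (hy : y ∈ tautRing C.toTheoryData S Y) :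
    C.pull f y ∈ tautRing C.toTheoryData S X := by
  refine Submodule.span_induction (p := fun y _ => C.pull f y ∈ tautRing C.toTheoryData S X) ?_ ?_ ?_ ?_ hy
  · rintro y ⟨i, hy⟩
    exact Submodule.subset_span ⟨i, Taut.pull _ _ f _ _ hy⟩
  · rw [map_zero]; exact Submodule.zero_mem _
  · intro a b _ _ ha hb
    rw [map_add]; exact Submodule.add_mem _ ha hb
  · intro c a _ ha
    rw [map_smul]; exact Submodule.smul_mem _ _ ha

lemma ring_push (f : X ⟶ Y) {x : C.A X} (hx : x ∈ tautRing C.toTheoryData S X) :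
    C.push f x ∈ tautRing C.toTheoryData S Y := by
  refine Submodule.span_induction (p := fun x _ => C.push f x ∈ tautRing C.toTheoryData S Y) ?_ ?_ ?_ ?_ hx
  · rintro x ⟨i, hx⟩
    exact Submodule.subset_span ⟨_, Taut.push _ _ f _ _ hx⟩
  · rw [map_zero]; exact Submodule.zero_mem _
  · intro a b _ _ ha hb
    rw [map_add]; exact Submodule.add_mem _ ha hb
  · intro c a _ ha
    rw [map_smul]; exact Submodule.smul_mem _ _ ha

/-- The tautological ring as a subalgebra. -/
def tsub (C : ChowTheory.{u, v, w} 𝒱 K) (S : ∀ X : 𝒱.Obj, ℤ → Set (C.A X)) (X : 𝒱.Obj) :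
    Subalgebra K (C.A X) where
  carrier := tautRing C.toTheoryData S X
  mul_mem' := ring_mul
  add_mem' := Submodule.add_mem _
  algebraMap_mem' := fun c => by
    rw [Algebra.algebraMap_eq_smul_one]
    exact Submodule.smul_mem _ c ring_one

lemma mem_tsub {x : C.A X} : x ∈ tsub C S X ↔ x ∈ tautRing C.toTheoryData S X := Iff.rfl

/-- The pull-back of tautological classes. -/
noncomputable def tpull (f : X ⟶ Y) : tsub C S Y →ₐ[K] tsub C S X :=
  ((C.pull f).comp (tsub C S Y).val).codRestrict (tsub C S X) fun y => ring_pull f y.2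

@[simp] lemma tpull_val (f : X ⟶ Y) (y : tsub C S Y) :
    ((tpull (X := X) f y : tsub C S X) : C.A X) = C.pull f (y : C.A Y) := rfl

/-- The push-forward of tautological classes. -/
noncomputable def tpush (f : X ⟶ Y) : tsub C S X →ₗ[K] tsub C S Y where
  toFun x := ⟨C.push f (x : C.A X), ring_push f x.2⟩
  map_add' a b := Subtype.ext (map_add (C.push f) (a : C.A X) (b : C.A X))
  map_smul' c a := Subtype.ext (map_smul (C.push f) c (a : C.A X))

@[simp] lemma tpush_val (f : X ⟶ Y) (x : tsub C S X) :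
    ((tpush (Y := Y) f x : tsub C S Y) : C.A Y) = C.push f (x : C.A X) := rfl

/-- The grading of the tautological ring. -/
def tgrade (C : ChowTheory.{u, v, w} 𝒱 K) (S : ∀ X : 𝒱.Obj, ℤ → Set (C.A X)) (X : 𝒱.Obj)
    (i : ℤ) : Submodule K (tsub C S X) :=
  (tgr C S X i).comap (tsub C S X).val.toLinearMap

lemma mem_tgrade {i : ℤ} {x : tsub C S X} : x ∈ tgrade C S X i ↔ Taut C.toTheoryData S X i (x : C.A X) :=
  Iff.rfl

lemma val_inj : Function.Injective (tsub C S X).val.toLinearMap := Subtype.val_injective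

lemma map_tgrade (i : ℤ) : (tgrade C S X i).map (tsub C S X).val.toLinearMap = tgr C S X i := by
  rw [tgrade, Submodule.map_comap_eq]
  apply inf_eq_right.2
  intro x hx
  exact ⟨⟨x, tgr_le_ring i hx⟩, rfl⟩

lemma internal (X : 𝒱.Obj) : DirectSum.IsInternal (tgrade C S X) := by
  rw [DirectSum.isInternal_submodule_iff_iSupIndep_and_iSup_eq_top]
  have h0 := C.isTheory.isGradedRing.isInternal X
  rw [DirectSum.isInternal_submodule_iff_iSupIndep_and_iSup_eq_top] at h0
  constructor
  · intro i
    rw [Submodule.disjoint_def]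
    intro x hx hx'
    have h1 : (tsub C S X).val.toLinearMap x ∈ ⨆ j, ⨆ (_ : j ≠ i), C.gr X j := by
      have h2 : (tsub C S X).val.toLinearMap x ∈
          (⨆ j, ⨆ (_ : j ≠ i), tgrade C S X j).map (tsub C S X).val.toLinearMap := ⟨x, hx', rfl⟩
      simp only [Submodule.map_iSup, map_tgrade] at h2
      exact (iSup_mono fun j => iSup_mono fun _ => tgr_le j) h2
    have h3 : (tsub C S X).val.toLinearMap x ∈ C.gr X i := Taut.deg (mem_tgrade.1 hx)
    have h4 := Submodule.disjoint_def.1 (h0.1 i) _ h3 h1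
    exact val_inj (h4.trans (map_zero _).symm)
  · apply Submodule.map_injective_of_injective (val_inj (C := C) (S := S) (X := X))
    rw [Submodule.map_iSup]
    simp only [map_tgrade]
    rw [← tautRing_eq]
    ext x
    constructor
    · intro hx
      exact ⟨⟨x, hx⟩, Submodule.mem_top, rfl⟩
    · rintro ⟨y, -, rfl⟩
      exact y.2

/-- The data of the theory of tautological classes. -/
noncomputable def tdata (C : ChowTheory.{u, v, w} 𝒱 K) (S : ∀ X : 𝒱.Obj, ℤ → Set (C.A X)) :
    TheoryData.{u, w, v} 𝒱 K where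
  A X := tsub C S X
  gr := tgrade C S
  pull f := tpull f
  push f := tpush f

/-- The class underlying a tautological class. -/
def vl (x : (tdata C S).A X) : C.A X := (tsub C S X).val x

lemma vl_ext {x y : (tdata C S).A X} (h : vl x = vl y) : x = y := Subtype.ext h

lemma vl_mem (x : (tdata C S).A X) : vl x ∈ tautRing C.toTheoryData S X := Subtype.prop (p := fun z => z ∈ tsub C S X) x

lemma tdata_isTheory : IsTheory (tdata C S) 1 where
  isGradedRing :=
    { isInternal := internal
      gr_neg := fun X i hi => by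
        rw [eq_bot_iff]
        intro x hx
        have h1 : vl x ∈ C.gr X i := Taut.deg (mem_tgrade.1 hx)
        rw [C.isTheory.isGradedRing.gr_neg X i hi, Submodule.mem_bot] at h1
        exact (Submodule.mem_bot _).2 (vl_ext h1)
      one_mem := fun X => Taut.one X
      mul_mem := fun ha hb => Taut.mul _ _ _ _ _ ha hb }
  hasDegrees :=
    { pull_mem := fun f _ _ hb => Taut.pull _ _ f _ _ hb
      push_mem := fun f i a ha => by
        have := Taut.push _ _ f _ _ ha
        rw [one_mul]
        exact this }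
  isFunctor :=
    { pull_id := fun a => vl_ext (C.isTheory.isFunctor.pull_id (vl a))
      pull_comp := fun f g a => vl_ext (C.isTheory.isFunctor.pull_comp f g (vl a))
      push_id := fun a => vl_ext (C.isTheory.isFunctor.push_id (vl a))
      push_comp := fun f g a => vl_ext (C.isTheory.isFunctor.push_comp f g (vl a)) }
  hasProjectionFormula :=
    { proj_right := fun f a b =>
        vl_ext (C.isTheory.hasProjectionFormula.proj_right f (vl a) (vl b))
      proj_left := fun f a b =>
        vl_ext (C.isTheory.hasProjectionFormula.proj_left f (vl a) (vl b)) }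
  hasBaseChange :=
    { base_fst := fun f Z a => vl_ext (C.isTheory.hasBaseChange.base_fst f Z (vl a))
      base_snd := fun f Z a => vl_ext (C.isTheory.hasBaseChange.base_snd f Z (vl a)) }

/-- The theory of tautological classes. -/
noncomputable def tchow (C : ChowTheory.{u, v, w} 𝒱 K) (S : ∀ X : 𝒱.Obj, ℤ → Set (C.A X)) :
    ChowTheory.{u, v, w} 𝒱 K where
  toTheoryData := tdata C S
  isTheory := tdata_isTheory
  push_one f := vl_ext (C.push_one f)
  mul_comm a b := vl_ext (C.mul_comm (vl a) (vl b))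
  gr_zero X x hx := by
    obtain ⟨q, hq⟩ := C.gr_zero X (vl x) (Taut.deg (mem_tgrade.1 hx))
    exact ⟨q, vl_ext hq⟩
  gr_top X i x hx hi := vl_ext (C.gr_top X i (vl x) (Taut.deg (mem_tgrade.1 hx)) hi)
  deg X x := C.deg X (vl x)

/-- Forgetting the ring structure. -/
def tequiv (C : ChowTheory.{u, v, w} 𝒱 K) (S : ∀ X : 𝒱.Obj, ℤ → Set (C.A X)) (X : 𝒱.Obj) :
    (tdata C S).A X ≃ₗ[K] tautRing C.toTheoryData S X where
  toFun x := ⟨vl x, vl_mem x⟩
  invFun x := (⟨x.1, x.2⟩ : tsub C S X)
  map_add' _ _ := rfl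
  map_smul' _ _ := rfl
  left_inv _ := rfl
  right_inv _ := rfl

lemma numRank_eq (X : 𝒱.Obj) :
    (tchow C S).numRank X = rankOf (tautRing C.toTheoryData S X) (C.deg X) := by
  rw [ChowTheory.numRank]
  change _ = finrank K (tautRing C.toTheoryData S X ⧸
    (numOf (tautRing C.toTheoryData S X) (C.deg X)).comap (tautRing C.toTheoryData S X).subtype)
  refine LinearEquiv.finrank_eq (Submodule.Quotient.equiv _ _ (tequiv C S X) ?_)
  apply Submodule.map_injective_of_injective (Submodule.injective_subtype (tautRing C.toTheoryData S X))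
  rw [Submodule.map_comap_subtype, ← Submodule.map_comp, Submodule.map_span]
  have h1 : numOf (tautRing C.toTheoryData S X) (C.deg X) ≤ tautRing C.toTheoryData S X := by
    rw [numOf, Submodule.span_le]
    exact fun x hx => hx.1
  rw [inf_eq_right.2 h1, numOf]
  congr 1
  ext x
  constructor
  · rintro ⟨y, hy, rfl⟩
    exact ⟨vl_mem y, fun z hz => hy (⟨z, hz⟩ : tsub C S X)⟩
  · rintro ⟨hx, h⟩
    exact ⟨(⟨x, hx⟩ : tsub C S X), fun z => h (vl z) (vl_mem z), rfl⟩

lemma ratio_eq' (X : 𝒱.Obj) : (tchow C S).ratio X = tautRatio C S X := by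
  rw [ChowTheory.ratio, numRank_eq]
  have h1 : (tchow C S).dim X = Cardinal.toENat (Module.rank K (tautRing C.toTheoryData S X)) :=
    congrArg Cardinal.toENat (tequiv C S X).rank_eq
  rw [h1]
  rfl

section cycle

variable {ops : CycleOps 𝒱} {W : WeilCohomology.{u, v} ops}

/-- The theory of tautological classes with its cycle class map. -/
noncomputable def tcycle (C : CycleTheory.{u, v, w} W) (S : ∀ X : 𝒱.Obj, ℤ → Set (C.A X))
    (hS : Polarized C.toChowTheory S) : CycleTheory.{u, v, w} W where
  toChowTheory := tchow C.toChowTheory S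
  cl X := (C.cl X).comp (tsub C.toChowTheory S X).val
  isClassMap X :=
    { mem := fun {i z} hz => (C.isClassMap X).mem (Taut.deg (mem_tgrade.1 hz))
      deg_eq := fun z => (C.isClassMap X).deg_eq (vl z)
      exists_point := by
        obtain ⟨z, hz, hz0⟩ := hS X
        refine ⟨(⟨(C.deg X z)⁻¹ • z, Submodule.smul_mem _ _ hz⟩ : tsub C.toChowTheory S X), ?_⟩
        change C.deg X ((C.deg X z)⁻¹ • z) = 1
        rw [(C.isClassMap X).deg_eq, map_smul, map_smul, ← (C.isClassMap X).deg_eq, smul_eq_mul,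
          inv_mul_cancel₀ hz0] }
  commutes {X Y} f :=
    { pull := fun z => (C.commutes f).pull (vl z)
      push := fun z => (C.commutes f).push (vl z) }

end cycle

end Pool.Agent.V7H78.TC
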